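import Pool.Agent.Y924.R7.Bas

set_option autoImplicit false

/-!
# The complete sums `KL` as functions of a product `l h`
-/

namespace Pool.Agent.Y924.R7.Br

open Finset
open Pool.Agent.Y766.R7 Pool.Agent.Y779.R3 Pool.Agent.Y924.R7
open Pool.Agent.Y766.R3 (KL)

variable {p r : ℕ}

theorem KL_scale [NeZero (p ^ r)] (Ψ : ZMod (p ^ r) → ℂ) (A B0 : ZMod (p ^ r))
    (w : (ZMod (p ^ r))ˣ) :
    KL Ψ A (B0 * (w : ZMod (p ^ r)) ^ 2) =
      KL (fun y : ZMod (p ^ r) => Ψ (y * (w : ZMod (p ^ r)))) (A * (w : ZMod (p ^ r)))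
        (B0 * (w : ZMod (p ^ r))) := by
  unfold KL
  rw [← Equiv.sum_comp (Equiv.mulRight w)]
  refine Finset.sum_congr rfl fun y _ => ?_
  rw [Equiv.coe_mulRight, mul_inv_rev, Units.val_mul, Units.val_mul]
  congr 2
  have h1 : (w : ZMod (p ^ r)) * ((w⁻¹ : (ZMod (p ^ r))ˣ) : ZMod (p ^ r)) = 1 := Units.mul_inv w
  linear_combination (B0 * (w : ZMod (p ^ r)) * ((y⁻¹ : (ZMod (p ^ r))ˣ) : ZMod (p ^ r))) * h1

theorem YY_scale [NeZero (p ^ r)] (s : ℕ) (A B0 : ZMod (p ^ r)) (w : (ZMod (p ^ r))ˣ) :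
    YY s (A * (w : ZMod (p ^ r))) (B0 * (w : ZMod (p ^ r))) = YY s A B0 := by
  ext y
  rw [mem_YY, mem_YY]
  have e : (p : ZMod (p ^ r)) ^ s * (A * (w : ZMod (p ^ r)) * (y : ZMod (p ^ r)) -
      B0 * (w : ZMod (p ^ r)) * ((y⁻¹ : (ZMod (p ^ r))ˣ) : ZMod (p ^ r))) =
      (w : ZMod (p ^ r)) * ((p : ZMod (p ^ r)) ^ s * (A * (y : ZMod (p ^ r)) -
      B0 * ((y⁻¹ : (ZMod (p ^ r))ˣ) : ZMod (p ^ r)))) := by ring
  rw [e, w.isUnit.mul_right_eq_zero]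

/-- elements killed by `p^s` are multiples of `p^(r-s)` -/
theorem ann_dvd [NeZero (p ^ r)] (hp : p.Prime) {s : ℕ} (hs : s ≤ r) {x : ZMod (p ^ r)}
    (hx : (p : ZMod (p ^ r)) ^ s * x = 0) : ∃ z, x = (p : ZMod (p ^ r)) ^ (r - s) * z := by
  rw [← ZMod.natCast_zmod_val x, ← Nat.cast_pow, ← Nat.cast_mul,
    ZMod.natCast_eq_zero_iff] at hx
  have e : p ^ s * p ^ (r - s) = p ^ r := by rw [← pow_add]; congr 1; omega
  obtain ⟨m, hm⟩ := Nat.dvd_of_mul_dvd_mul_left (pow_pos hp.pos s) ((dvd_of_eq e).trans hx)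
  refine ⟨m, ?_⟩
  rw [← Nat.cast_pow, ← Nat.cast_mul, ← hm, ZMod.natCast_zmod_val]

/-- an exact root near an approximate one -/
theorem root (hsq : S_SQ) [NeZero (p ^ r)] (hp : p.Prime) (hp2 : p ≠ 2) (hr : 2 ≤ r)
    {A B0 : ZMod (p ^ r)} (hB : IsUnit B0) {y1 : (ZMod (p ^ r))ˣ}
    (h1 : y1 ∈ YY ((r + 1) / 2) A B0) : ∃ y0 : ZMod (p ^ r), IsUnit y0 ∧ A * y0 ^ 2 = B0 := by
  rw [mem_YY] at h1
  have e1 : (y1 : ZMod (p ^ r)) * ((y1⁻¹ : (ZMod (p ^ r))ˣ) : ZMod (p ^ r)) = 1 :=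
    Units.mul_inv y1
  have h2 : (p : ZMod (p ^ r)) ^ ((r + 1) / 2) * (A * (y1 : ZMod (p ^ r)) ^ 2 - B0) = 0 := by
    linear_combination (y1 : ZMod (p ^ r)) * h1 + (p : ZMod (p ^ r)) ^ ((r + 1) / 2) * B0 * e1
  obtain ⟨z, hz⟩ := ann_dvd hp (by omega) h2
  have hB1 := mul_inv hB
  have e2 : (p : ZMod (p ^ r)) ^ (r - (r + 1) / 2) = p * (p : ZMod (p ^ r)) ^ (r - (r + 1) / 2 - 1) := by
    rw [← pow_succ']; congr 1; omega
  obtain ⟨y', hy'⟩ : ∃ y' : ZMod (p ^ r), y' = (p : ZMod (p ^ r)) ^ (r - (r + 1) / 2 - 1) * z * B0⁻¹ :=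
    ⟨_, rfl⟩
  have h3 : A * (y1 : ZMod (p ^ r)) ^ 2 = B0 * (1 + p * y') := by
    rw [e2] at hz
    rw [hy']
    linear_combination hz - ((p : ZMod (p ^ r)) * (p : ZMod (p ^ r)) ^ (r - (r + 1) / 2 - 1) * z) * hB1
  have h4 := (hsq p r hp hp2 (by omega)).1 y'
  have hu1 : IsUnit (1 + p * y' : ZMod (p ^ r)) := by
    have := unit_one_add (p := p) (r := r) (E := 1) le_rfl y'
    rwa [pow_one] at this
  have hus : IsUnit (sq p r (1 + p * y')) := by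
    have : IsUnit (sq p r (1 + p * y') ^ 2) := by rw [h4]; exact hu1
    rwa [isUnit_pow_iff (by norm_num)] at this
  have h5 := mul_inv hus
  refine ⟨(y1 : ZMod (p ^ r)) * (sq p r (1 + p * y'))⁻¹, y1.isUnit.mul (inv_unit hus), ?_⟩
  have h6 : (sq p r (1 + p * y')) ^ 2 * ((sq p r (1 + p * y'))⁻¹) ^ 2 = 1 := by
    rw [← mul_pow, h5, one_pow]
  rw [h4] at h6
  rw [mul_pow]
  linear_combination (((sq p r (1 + p * y'))⁻¹) ^ 2) * h3 + B0 * h6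

/-- one term -/
theorem term [NeZero (p ^ r)] (hp : p.Prime) (hr : 2 ≤ r) {u : ℕ} (hu : 2 * u + 1 ≤ r)
    {Ψ : ZMod (p ^ r) → ℂ} (hΨ : ∀ y z : ZMod (p ^ r), Ψ (y + (p : ZMod (p ^ r)) ^ u * z) = Ψ y)
    {A B0 y1 W : ZMod (p ^ r)} (h1 : A * y1 ^ 2 = B0) (hW : ∃ z, W = 1 + p * z)
    (y : (ZMod (p ^ r))ˣ) (hy : (p : ZMod (p ^ r)) ^ ((r + 1) / 2) * ((y : ZMod (p ^ r)) - y1) = 0) :
    Ψ (y * W) * (ZMod.stdAddChar (A * W * (y : ZMod (p ^ r)) +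
        B0 * W * ((y⁻¹ : (ZMod (p ^ r))ˣ) : ZMod (p ^ r))) : ℂ) =
      (Ψ (y1 * W) * ZMod.stdAddChar (2 * A * y1 * W)) *
        ZMod.stdAddChar (A * ((y : ZMod (p ^ r)) - y1) ^ 2 *
          ((y⁻¹ : (ZMod (p ^ r))ˣ) : ZMod (p ^ r))) := by
  obtain ⟨z, hz⟩ := ann_dvd hp (by omega) hy
  obtain ⟨z2, hz2⟩ := hW
  have e1 : (y : ZMod (p ^ r)) * ((y⁻¹ : (ZMod (p ^ r))ˣ) : ZMod (p ^ r)) = 1 :=
    Units.mul_inv y
  have hΨ1 : Ψ (y * W) = Ψ (y1 * W) := by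
    have e2 : (p : ZMod (p ^ r)) ^ (r - (r + 1) / 2) =
        (p : ZMod (p ^ r)) ^ u * (p : ZMod (p ^ r)) ^ (r - (r + 1) / 2 - u) := by
      rw [← pow_add]; congr 1; omega
    have e3 : (y : ZMod (p ^ r)) * W = y1 * W + (p : ZMod (p ^ r)) ^ u *
        ((p : ZMod (p ^ r)) ^ (r - (r + 1) / 2 - u) * z * W) := by
      rw [e2] at hz
      linear_combination W * hz
    rw [e3, hΨ]
  have hpp : (p : ZMod (p ^ r)) * ((y : ZMod (p ^ r)) - y1) ^ 2 = 0 := by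
    have e4 : (p : ZMod (p ^ r)) ^ (1 + (r - (r + 1) / 2) + (r - (r + 1) / 2)) = 0 :=
      pi_zero (by omega)
    rw [hz, mul_pow, ← mul_assoc]
    have e5 : (p : ZMod (p ^ r)) * ((p : ZMod (p ^ r)) ^ (r - (r + 1) / 2)) ^ 2 =
        (p : ZMod (p ^ r)) ^ (1 + (r - (r + 1) / 2) + (r - (r + 1) / 2)) := by
      rw [pow_add, pow_add, pow_one]; ring
    rw [e5, e4, zero_mul]
  rw [hΨ1, mul_assoc (Ψ (y1 * W)), ← AddChar.map_add_eq_mul]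
  congr 2
  rw [← h1]
  have h5 : A * (W - 1) * (((y : ZMod (p ^ r)) - y1) ^ 2) *
      ((y⁻¹ : (ZMod (p ^ r))ˣ) : ZMod (p ^ r)) = 0 := by
    rw [hz2]
    linear_combination (A * z2 * ((y⁻¹ : (ZMod (p ^ r))ˣ) : ZMod (p ^ r))) * hpp
  linear_combination h5 + (A * W * (2 * y1 - (y : ZMod (p ^ r)))) * e1

theorem card_sub [NeZero (p ^ r)] (hp : p.Prime) {s : ℕ} (hs : s ≤ r) (c : ZMod (p ^ r))
    (Z : Finset (ZMod (p ^ r))ˣ)
    (hZ : ∀ y ∈ Z, (p : ZMod (p ^ r)) ^ s * ((y : ZMod (p ^ r)) - c) = 0) : Z.card ≤ p ^ s := by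
  classical
  refine le_trans ?_ (card_ann hp hs c)
  apply Finset.card_le_card_of_injOn (fun y : (ZMod (p ^ r))ˣ => (y : ZMod (p ^ r)))
  · intro y hy
    simp only [coe_filter, mem_univ, true_and, Set.mem_ofPred_eq]
    exact hZ y (by simpa using hy)
  · intro y _ y' _ h
    exact Units.ext h

theorem br (hsq : S_SQ) : S_BR := by
  intro p r u _ hp hp2 hr hu Ψ hΨ A L hA hL l0 h0 hl0 hh0
  classical
  obtain ⟨s, hs⟩ : ∃ s, s = (r + 1) / 2 := ⟨_, rfl⟩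
  obtain ⟨B0, hB0⟩ : ∃ B0 : ZMod (p ^ r), B0 = L * l0 * h0 := ⟨_, rfl⟩
  have hB0u : IsUnit B0 := by
    rw [hB0]; exact (hL.mul (unit_int hp hl0)).mul (unit_int hp hh0)
  have hs1 : r ≤ 2 * s := by omega
  have hs2 : u ≤ s := by omega
  have hs3 : s < r := by omega
  -- the sum over the localised set
  have hKL : ∀ l h : ℤ, (p : ℤ) ∣ l - l0 → (p : ℤ) ∣ h - h0 →
      ∃ W : ZMod (p ^ r), W = aa p r l0 l * aa p r h0 h ∧ (∃ z, W = 1 + p * z) ∧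
        KL Ψ A (L * ((l * h : ℤ) : ZMod (p ^ r))) = ∑ y ∈ YY s A B0, Ψ (y * W) *
          ZMod.stdAddChar (A * W * (y : ZMod (p ^ r)) +
            B0 * W * ((y⁻¹ : (ZMod (p ^ r))ˣ) : ZMod (p ^ r))) := by
    intro l h hl hh
    have hW : IsUnit (aa p r l0 l * aa p r h0 h) :=
      (aa_unit hsq hp hp2 (by omega) hl0 hl).mul (aa_unit hsq hp hp2 (by omega) hh0 hh)
    obtain ⟨w, hw⟩ := hW
    refine ⟨aa p r l0 l * aa p r h0 h, rfl, ?_, ?_⟩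
    · obtain ⟨z1, hz1⟩ := aa_one (r := r) hsq hp hp2 (by omega) hl0 hl
      obtain ⟨z2, hz2⟩ := aa_one (r := r) hsq hp hp2 (by omega) hh0 hh
      refine ⟨z1 + z2 + p * z1 * z2, ?_⟩
      rw [hz1, hz2]; ring
    · have e1 : L * ((l * h : ℤ) : ZMod (p ^ r)) = B0 * (w : ZMod (p ^ r)) ^ 2 := by
        rw [hw, hB0]
        push_cast
        have h1 := aa_sq (r := r) hsq hp hp2 (by omega) hl0 hl
        have h2 := aa_sq (r := r) hsq hp hp2 (by omega) hh0 hh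
        rw [← h1, ← h2]
        ring
      rw [e1, KL_scale, loc hs1 hs2 (fun y : ZMod (p ^ r) => Ψ (y * (w : ZMod (p ^ r)))) ?_
        (A * (w : ZMod (p ^ r))) (B0 * (w : ZMod (p ^ r))), YY_scale, hw]
      intro y z
      have : (y + (p : ZMod (p ^ r)) ^ u * z) * (w : ZMod (p ^ r)) =
          y * w + (p : ZMod (p ^ r)) ^ u * (z * w) := by ring
      rw [this, hΨ]
  rcases Finset.eq_empty_or_nonempty (YY s A B0) with hE | ⟨y1, hy1⟩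
  · refine ⟨fun _ => 0, fun _ => 1, ?_, ?_⟩
    · intro i
      rw [norm_zero]
      exact ⟨Nat.cast_nonneg _, isUnit_one⟩
    · intro l h hl hh
      obtain ⟨W, _, _, hW3⟩ := hKL l h hl hh
      rw [hW3, hE, Finset.sum_empty]
      simp
  rw [hs] at hy1
  obtain ⟨y0, hy0u, hy0⟩ := root hsq hp hp2 hr hB0u hy1
  obtain ⟨Y, hY⟩ : ∃ Y : Fin 2 → ZMod (p ^ r), Y = ![y0, -y0] := ⟨_, rfl⟩
  have hYsq : ∀ i, A * Y i ^ 2 = B0 := by
    intro i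
    rw [hY]
    fin_cases i
    · simpa using hy0
    · simpa using hy0
  have hYu : ∀ i, IsUnit (Y i) := by
    intro i
    rw [hY]
    fin_cases i
    · simpa using hy0u
    · simpa using hy0u
  -- the two classes
  obtain ⟨Z, hZ⟩ : ∃ Z : Fin 2 → Finset (ZMod (p ^ r))ˣ, Z = ![
    (YY s A B0).filter (fun y : (ZMod (p ^ r))ˣ => (p : ZMod (p ^ r)) ^ s * ((y : ZMod (p ^ r)) - y0) = 0),
    (YY s A B0).filter (fun y : (ZMod (p ^ r))ˣ => ¬ (p : ZMod (p ^ r)) ^ s * ((y : ZMod (p ^ r)) - y0) = 0)] :=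
    ⟨_, rfl⟩
  have hsplit : ∀ F : (ZMod (p ^ r))ˣ → ℂ, ∑ y ∈ YY s A B0, F y = ∑ i, ∑ y ∈ Z i, F y := by
    intro F
    rw [Fin.sum_univ_two, hZ]
    simp only [Matrix.cons_val_zero, Matrix.cons_val_one]
    rw [Finset.sum_filter_add_sum_filter_not]
  have hZY : ∀ i, ∀ y ∈ Z i, (p : ZMod (p ^ r)) ^ s * ((y : ZMod (p ^ r)) - Y i) = 0 := by
    intro i y hy
    rw [hZ] at hy
    rw [hY]
    fin_cases i
    · simp only [Fin.zero_eta, Matrix.cons_val_zero, mem_filter] at hy ⊢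
      exact hy.2
    · simp only [Fin.mk_one, Matrix.cons_val_one, Matrix.cons_val_zero, mem_filter] at hy ⊢
      obtain ⟨hy2, hy3⟩ := hy
      rw [mem_YY] at hy2
      have e1 : (y : ZMod (p ^ r)) * ((y⁻¹ : (ZMod (p ^ r))ˣ) : ZMod (p ^ r)) = 1 :=
        Units.mul_inv y
      have h1 : (p : ZMod (p ^ r)) ^ s * (A * (y : ZMod (p ^ r)) ^ 2 - B0) = 0 := by
        linear_combination (y : ZMod (p ^ r)) * hy2 + (p : ZMod (p ^ r)) ^ s * B0 * e1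
      have h2 : A * ((p : ZMod (p ^ r)) ^ s * (((y : ZMod (p ^ r)) - y0) * (y - (-y0)))) = 0 := by
        linear_combination h1 - (p : ZMod (p ^ r)) ^ s * hy0
      have h3 := (hA.mul_right_eq_zero).1 h2
      have h4 : IsUnit (((y : ZMod (p ^ r)) - y0) + (y - (-y0))) := by
        have e : ((y : ZMod (p ^ r)) - y0) + (y - (-y0)) = 2 * y := by ring
        rw [e]
        exact (unit_two hp hp2).mul y.isUnit
      rcases unit_add hp (by omega) h4 with h | h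
      · have h5 : ((y : ZMod (p ^ r)) - y0) * ((p : ZMod (p ^ r)) ^ s * (y - (-y0))) = 0 := by
          linear_combination h3
        exact (h.mul_right_eq_zero).1 h5
      · exfalso
        apply hy3
        have h5 : ((y : ZMod (p ^ r)) - (-y0)) * ((p : ZMod (p ^ r)) ^ s * (y - y0)) = 0 := by
          linear_combination h3
        exact (h.mul_right_eq_zero).1 h5
  obtain ⟨S, hS⟩ : ∃ S : Fin 2 → ℂ, S = fun i => ∑ y ∈ Z i,
    (ZMod.stdAddChar (A * ((y : ZMod (p ^ r)) - Y i) ^ 2 *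
          ((y⁻¹ : (ZMod (p ^ r))ˣ) : ZMod (p ^ r))) : ℂ) := ⟨_, rfl⟩
  have hpr : (0:ℝ) < (p:ℝ) := by exact_mod_cast hp.pos
  have hpc : (p : ℂ) ≠ 0 := by exact_mod_cast hp.ne_zero
  have hSn : ∀ i, ‖S i‖ ≤ (p:ℝ) ^ s := by
    intro i
    rw [hS]
    refine (norm_sum_le _ _).trans ?_
    have : ∀ y ∈ Z i, ‖(ZMod.stdAddChar (A * ((y : ZMod (p ^ r)) - Y i) ^ 2 *
          ((y⁻¹ : (ZMod (p ^ r))ˣ) : ZMod (p ^ r))) : ℂ)‖ = 1 := fun y _ => AddChar.norm_apply _ _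
    rw [Finset.sum_congr rfl this, Finset.sum_const, nsmul_eq_mul, mul_one]
    exact_mod_cast card_sub hp hs3.le (Y i) (Z i) (hZY i)
  refine ⟨fun i => ((p:ℂ) ^ (r / 2))⁻¹ * S i, Y, fun i => ⟨?_, hYu i⟩, ?_⟩
  · rw [norm_mul, norm_inv, norm_pow, Complex.norm_natCast, ← div_eq_inv_mul,
      div_le_iff₀ (by positivity)]
    refine (hSn i).trans ?_
    rw [← pow_succ']
    apply pow_le_pow_right₀
    · exact_mod_cast hp.one_lt.le
    · omega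
  · intro l h hl hh
    obtain ⟨W, hW1, hW2, hW3⟩ := hKL l h hl hh
    rw [hW3, hsplit, Finset.mul_sum]
    apply Finset.sum_congr rfl
    intro i _
    have h1 : ∀ y ∈ Z i, Ψ (y * W) * (ZMod.stdAddChar (A * W * (y : ZMod (p ^ r)) +
            B0 * W * ((y⁻¹ : (ZMod (p ^ r))ˣ) : ZMod (p ^ r))) : ℂ) =
        (Ψ (Y i * W) * ZMod.stdAddChar (2 * A * Y i * W)) *
        ZMod.stdAddChar (A * ((y : ZMod (p ^ r)) - Y i) ^ 2 *
          ((y⁻¹ : (ZMod (p ^ r))ˣ) : ZMod (p ^ r))) := by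
      intro y hy
      have h2 := hZY i y hy
      rw [hs] at h2
      exact term hp hr hu hΨ (hYsq i) hW2 y h2
    rw [Finset.sum_congr rfl h1, ← Finset.mul_sum]
    have h3 : ∑ y ∈ Z i, (ZMod.stdAddChar (A * ((y : ZMod (p ^ r)) - Y i) ^ 2 *
          ((y⁻¹ : (ZMod (p ^ r))ˣ) : ZMod (p ^ r))) : ℂ) = S i := by rw [hS]
    rw [h3, ← hW1]
    have h4 : (p:ℂ) ^ (r / 2) * ((p:ℂ) ^ (r / 2))⁻¹ = 1 := mul_inv_cancel₀ (pow_ne_zero _ hpc)
    linear_combination (-(Ψ (Y i * W) * ZMod.stdAddChar (2 * A * Y i * W) * S i)) * h4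

end Pool.Agent.Y924.R7.Br
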