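import Pool.Agent.Y924.R7.Bas

set_option autoImplicit false

/-!
# The gradient `(psi1, psi2)` is injective on residue classes modulo `p`
-/

namespace Pool.Agent.Y924.R7.Inj

open Finset
open Pool.Agent.Y766.R7 Pool.Agent.Y779.R3 Pool.Agent.Y924.R7

section abs

theorem map_EE {R S : Type} [CommRing R] [CommRing S] (f : R →+* S) (x1 x2 x3 : R) :
    f (EE x1 x2 x3) = EE (f x1) (f x2) (f x3) := by
  unfold EE
  simp only [map_add, map_sub, map_mul, map_pow]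
  rw [map_ofNat f 24, map_ofNat f 120, map_ofNat f 560, map_ofNat f 840, map_ofNat f 2520,
    map_ofNat f 5040, map_ofNat f 7560]

theorem map_EK {R S : Type} [CommRing R] [CommRing S] (f : R →+* S) (x1 x2 x3 : R) :
    f (EK x1 x2 x3) = EK (f x1) (f x2) (f x3) := by
  unfold EK
  simp only [map_add, map_sub, map_mul, map_pow, map_neg]
  rw [map_ofNat f 120, map_ofNat f 1120, map_ofNat f 1680, map_ofNat f 7560,
    map_ofNat f 15120, map_ofNat f 22680]

theorem EE_congr {R : Type} [CommRing R] (J : Ideal R) {x1 x2 x3 y1 y2 y3 : R}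
    (h1 : x1 - y1 ∈ J) (h2 : x2 - y2 ∈ J) (h3 : x3 - y3 ∈ J) : EE x1 x2 x3 - EE y1 y2 y3 ∈ J := by
  rw [← Ideal.Quotient.eq] at h1 h2 h3 ⊢
  rw [map_EE, map_EE, h1, h2, h3]

theorem EK_congr {R : Type} [CommRing R] (J : Ideal R) {x1 x2 x3 y1 y2 y3 : R}
    (h1 : x1 - y1 ∈ J) (h2 : x2 - y2 ∈ J) (h3 : x3 - y3 ∈ J) : EK x1 x2 x3 - EK y1 y2 y3 ∈ J := by
  rw [← Ideal.Quotient.eq] at h1 h2 h3 ⊢
  rw [map_EK, map_EK, h1, h2, h3]

theorem core {S : Type} [CommRing S] {L0 H0 L H L' H' a b a' b' i i' e e' k k' j m j' m' : S}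
    (uL : IsUnit L) (uH : IsUnit H) (uL' : IsUnit L') (uH' : IsUnit H')
    (ha : a ^ 2 * L0 = L) (hb : b ^ 2 * H0 = H) (ha' : a' ^ 2 * L0 = L') (hb' : b' ^ 2 * H0 = H')
    (hi : 4 * H * i = 1) (hi' : 4 * H' * i' = 1) (hj : 2 * L * j = 1) (hj' : 2 * L' * j' = 1)
    (hm : H * m = 1) (hm' : H' * m' = 1) (uu : IsUnit (2 * (a * (b * i ^ 3 * e) * j)))
    (g1 : a * (b * i ^ 3 * e) * j = a' * (b' * i' ^ 3 * e') * j')
    (g2 : a * (b * i ^ 3 * e) * (k * m) = a' * (b' * i' ^ 3 * e') * (k' * m')) :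
    L * k * H' = L' * k' * H ∧ e ^ 2 * k * H' ^ 6 = e' ^ 2 * k' * H ^ 6 := by
  obtain ⟨X, hX⟩ : ∃ X : S, X = a * (b * i ^ 3 * e) := ⟨_, rfl⟩
  obtain ⟨X', hX'⟩ : ∃ X : S, X = a' * (b' * i' ^ 3 * e') := ⟨_, rfl⟩
  rw [← hX, ← hX'] at g1 g2
  rw [← hX] at uu
  obtain ⟨u, hu⟩ : ∃ u : S, u = X * j := ⟨_, rfl⟩
  have hXu : X = 2 * L * u := by rw [hu]; linear_combination (-X) * hj
  have hXu' : X' = 2 * L' * u := by rw [hu, g1]; linear_combination (-X') * hj'
  rw [← hu] at uu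
  have hA : L * k * H' = L' * k' * H := by
    apply uu.mul_left_cancel
    have h1 : X * k * H' = X' * k' * H := by
      calc X * k * H' = (X * (k * m)) * (H * H') := by linear_combination (-X * k * H') * hm
        _ = (X' * (k' * m')) * (H * H') := by rw [g2]
        _ = X' * k' * H := by linear_combination (X' * k' * H) * hm'
    rw [hXu, hXu'] at h1
    linear_combination h1
  have hB : 4 ^ 7 * u ^ 2 * L0 * H0 * L * H ^ 5 = e ^ 2 := by
    apply (uL.mul uH).mul_left_cancel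
    have h1 : X ^ 2 * L0 * H0 * (4 * H) ^ 6 = L * H * e ^ 2 := by
      calc X ^ 2 * L0 * H0 * (4 * H) ^ 6 = (a ^ 2 * L0) * (b ^ 2 * H0) * (4 * H * i) ^ 6 * e ^ 2 := by
            rw [hX]; ring
        _ = _ := by rw [ha, hb, hi]; ring
    rw [hXu] at h1
    linear_combination h1
  have hB' : 4 ^ 7 * u ^ 2 * L0 * H0 * L' * H' ^ 5 = e' ^ 2 := by
    apply (uL'.mul uH').mul_left_cancel
    have h1 : X' ^ 2 * L0 * H0 * (4 * H') ^ 6 = L' * H' * e' ^ 2 := by
      calc X' ^ 2 * L0 * H0 * (4 * H') ^ 6 =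
            (a' ^ 2 * L0) * (b' ^ 2 * H0) * (4 * H' * i') ^ 6 * e' ^ 2 := by
            rw [hX']; ring
        _ = _ := by rw [ha', hb', hi']; ring
    rw [hXu'] at h1
    linear_combination h1
  refine ⟨hA, ?_⟩
  rw [← hB, ← hB']
  linear_combination (4 ^ 7 * u ^ 2 * L0 * H0 * H ^ 5 * H' ^ 5) * hA

end abs

variable {p r : ℕ}

theorem unit_of_sub [NeZero (p ^ r)] (hp : p.Prime) (hr : 1 ≤ r) {a u : ZMod (p ^ r)}
    (hu : IsUnit u) (h : a - u ∈ Ideal.span {(p : ZMod (p ^ r))}) : IsUnit a := by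
  rw [Ideal.mem_span_singleton] at h
  obtain ⟨z, hz⟩ := h
  rcases unit_or hp a with ha | ⟨a', ha'⟩
  · exact ha
  · exfalso
    have : u = p * (a' - z) := by linear_combination (-1 : ZMod (p ^ r)) * hz + ha'
    rw [this] at hu
    exact not_unit_pi hp hr _ hu

theorem inv_congr (J : Ideal (ZMod (p ^ r))) {a b : ZMod (p ^ r)} (ha : IsUnit a) (hb : IsUnit b)
    (h : a - b ∈ J) : a⁻¹ - b⁻¹ ∈ J := by
  have h1 := mul_inv ha
  have h2 := mul_inv hb
  have e : a⁻¹ - b⁻¹ = (-(a⁻¹ * b⁻¹)) * (a - b) := by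
    linear_combination (b⁻¹) * h1 - a⁻¹ * h2
  rw [e]
  exact J.mul_mem_left _ h

theorem unit_small (hp : p.Prime) (h7 : 7 ≤ p) {n : ℕ} (hn : n = 4 ∨ n = 5 ∨ n = 6 ∨ n = 24) :
    IsUnit ((n : ℕ) : ZMod (p ^ r)) := by
  have h : ¬ (p : ℤ) ∣ (n : ℤ) := by
    intro h
    have h' : p ∣ n := by exact_mod_cast h
    have h2 : ¬ p ∣ 2 := fun h => by have := Nat.le_of_dvd (by norm_num) h; omega
    have h3 : ¬ p ∣ 3 := fun h => by have := Nat.le_of_dvd (by norm_num) h; omega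
    have h5 : ¬ p ∣ 5 := fun h => by have := Nat.le_of_dvd (by norm_num) h; omega
    rcases hn with rfl | rfl | rfl | rfl
    · rw [show (4:ℕ) = 2 * 2 by norm_num, hp.dvd_mul] at h'
      tauto
    · exact h5 h'
    · rw [show (6:ℕ) = 2 * 3 by norm_num, hp.dvd_mul] at h'
      tauto
    · rw [show (24:ℕ) = 2 * 2 * 2 * 3 by norm_num, hp.dvd_mul, hp.dvd_mul, hp.dvd_mul] at h'
      tauto
  have := unit_int (r := r) hp h
  simpa using this

section units

variable [NeZero (p ^ r)] (hp : p.Prime) (h7 : 7 ≤ p) (hr : 1 ≤ r) {t1 t2 t3 h0 h : ℤ}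
  (ht1 : (p : ℤ) ∣ t1) (ht2 : (p : ℤ) ∣ t2) (ht3 : (p : ℤ) ∣ t3)

omit [NeZero (p ^ r)] in
theorem t_mem {t : ℤ} (ht : (p : ℤ) ∣ t) (y : ZMod (p ^ r)) :
    (t : ZMod (p ^ r)) * y - 0 ∈ Ideal.span {(p : ZMod (p ^ r))} := by
  rw [sub_zero, Ideal.mem_span_singleton]
  obtain ⟨k, rfl⟩ := ht
  push_cast
  exact ⟨k * y, by ring⟩

include hp h7 hr ht1 ht2 ht3 in
theorem eh_unit : IsUnit (eh p r t1 t2 t3 h) := by
  have h24 : IsUnit (24 : ZMod (p ^ r)) := by
    have := unit_small (r := r) hp h7 (n := 24) (by norm_num)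
    simpa using this
  apply unit_of_sub hp hr h24
  have e : (24 : ZMod (p ^ r)) = EE 0 0 0 := by unfold EE; ring
  rw [e]
  unfold eh
  exact EE_congr _ (t_mem ht1 _) (t_mem ht2 _) (t_mem ht3 _)

include hp h7 hr ht1 ht2 ht3 in
theorem kap_unit : IsUnit (kap p r t1 t2 t3 h) := by
  have h2 : IsUnit (2 : ZMod (p ^ r)) := unit_two hp (by omega)
  have h2' := mul_inv h2
  have h5 : IsUnit (-5 : ZMod (p ^ r)) := by
    have := unit_small (r := r) hp h7 (n := 5) (by norm_num)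
    rw [IsUnit.neg_iff]
    simpa using this
  have hk : IsUnit (2 * kap p r t1 t2 t3 h) := by
    apply unit_of_sub hp hr h5
    have e : 2 * kap p r t1 t2 t3 h - (-5) =
        (-2 * (eh p r t1 t2 t3 h)⁻¹) * ek p r t1 t2 t3 h := by
      unfold kap
      linear_combination h2'
    rw [e]
    apply Ideal.mul_mem_left
    have e0 : (0 : ZMod (p ^ r)) = EK 0 0 0 := by unfold EK; ring
    rw [← sub_zero (ek p r t1 t2 t3 h), e0]
    unfold ek
    exact EK_congr _ (t_mem ht1 _) (t_mem ht2 _) (t_mem ht3 _)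
  exact isUnit_of_mul_isUnit_right hk

end units

theorem inj (hsq : S_SQ) : S_INJ := by
  intro p r hp h7 hr l0 h0 t1 t2 t3 hl0 hh0 ht1 ht2 ht3
  have hp2 : p ≠ 2 := by omega
  have hne : NeZero (p ^ r) := ⟨pow_ne_zero _ hp.ne_zero⟩
  have u2 : IsUnit (2 : ZMod (p ^ r)) := unit_two hp hp2
  have u4 : IsUnit (4 : ZMod (p ^ r)) := by
    have := unit_small (r := r) hp h7 (n := 4) (by norm_num)
    simpa using this
  have hLam : ∀ l h : ℤ, (p : ℤ) ∣ l - l0 → (p : ℤ) ∣ h - h0 →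
      IsUnit (Lam p r l0 h0 t1 t2 t3 l h) := by
    intro l h hl hh
    unfold Lam
    have uh := int_unit_of_dvd (r := r) hp hh0 hh
    exact (aa_unit hsq hp hp2 hr hl0 hl).mul (((aa_unit hsq hp hp2 hr hh0 hh).mul
      ((inv_unit (u4.mul uh)).pow 3)).mul (eh_unit hp h7 hr ht1 ht2 ht3))
  constructor
  · intro l h hl hh
    have ul := int_unit_of_dvd (r := r) hp hl0 hl
    have uh := int_unit_of_dvd (r := r) hp hh0 hh
    unfold psi1 psi2
    exact ⟨(hLam l h hl hh).mul (inv_unit (u2.mul ul)),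
      (hLam l h hl hh).mul ((kap_unit hp h7 hr ht1 ht2 ht3).mul (inv_unit uh))⟩
  · intro s l h l' h' hl hh hl' hh' e1 e2
    have ul := int_unit_of_dvd (r := r) hp hl0 hl
    have uh := int_unit_of_dvd (r := r) hp hh0 hh
    have ul' := int_unit_of_dvd (r := r) hp hl0 hl'
    have uh' := int_unit_of_dvd (r := r) hp hh0 hh'
    -- the annihilator of `p ^ s`
    obtain ⟨I, hI⟩ : ∃ I : Ideal (ZMod (p ^ r)), ∀ x, x ∈ I ↔ (p : ZMod (p ^ r)) ^ s * x = 0 :=
      ⟨LinearMap.ker (LinearMap.mulLeft (ZMod (p ^ r)) ((p : ZMod (p ^ r)) ^ s)), fun x => by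
        rw [LinearMap.mem_ker, LinearMap.mulLeft_apply]⟩
    have q1 : Ideal.Quotient.mk I (psi1 p r l0 h0 t1 t2 t3 l h) =
        Ideal.Quotient.mk I (psi1 p r l0 h0 t1 t2 t3 l' h') := by
      rw [Ideal.Quotient.eq, hI, mul_sub, e1, sub_self]
    have q2 : Ideal.Quotient.mk I (psi2 p r l0 h0 t1 t2 t3 l h) =
        Ideal.Quotient.mk I (psi2 p r l0 h0 t1 t2 t3 l' h') := by
      rw [Ideal.Quotient.eq, hI, mul_sub, e2, sub_self]
    obtain ⟨f, hf⟩ : ∃ f : ZMod (p ^ r) →+* (ZMod (p ^ r) ⧸ I), f = Ideal.Quotient.mk I := ⟨_, rfl⟩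
    rw [← hf] at q1 q2
    have hc := core (S := ZMod (p ^ r) ⧸ I) (L0 := f l0) (H0 := f h0) (L := f l) (H := f h)
      (L' := f l') (H' := f h') (a := f (aa p r l0 l)) (b := f (aa p r h0 h))
      (a' := f (aa p r l0 l')) (b' := f (aa p r h0 h'))
      (i := f ((4 * (h : ZMod (p ^ r)))⁻¹)) (i' := f ((4 * (h' : ZMod (p ^ r)))⁻¹))
      (e := f (eh p r t1 t2 t3 h)) (e' := f (eh p r t1 t2 t3 h'))
      (k := f (kap p r t1 t2 t3 h)) (k' := f (kap p r t1 t2 t3 h'))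
      (j := f ((2 * (l : ZMod (p ^ r)))⁻¹)) (j' := f ((2 * (l' : ZMod (p ^ r)))⁻¹))
      (m := f ((h : ZMod (p ^ r))⁻¹)) (m' := f ((h' : ZMod (p ^ r))⁻¹))
      (ul.map f) (uh.map f) (ul'.map f) (uh'.map f)
      (by rw [← map_pow, ← map_mul, aa_sq hsq hp hp2 hr hl0 hl])
      (by rw [← map_pow, ← map_mul, aa_sq hsq hp hp2 hr hh0 hh])
      (by rw [← map_pow, ← map_mul, aa_sq hsq hp hp2 hr hl0 hl'])
      (by rw [← map_pow, ← map_mul, aa_sq hsq hp hp2 hr hh0 hh'])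
      (by rw [← map_ofNat f 4, ← map_mul, ← map_mul, mul_inv (u4.mul uh), map_one])
      (by rw [← map_ofNat f 4, ← map_mul, ← map_mul, mul_inv (u4.mul uh'), map_one])
      (by rw [← map_ofNat f 2, ← map_mul, ← map_mul, mul_inv (u2.mul ul), map_one])
      (by rw [← map_ofNat f 2, ← map_mul, ← map_mul, mul_inv (u2.mul ul'), map_one])
      (by rw [← map_mul, mul_inv uh, map_one])
      (by rw [← map_mul, mul_inv uh', map_one])
      (by
        have := (u2.mul ((hLam l h hl hh).mul (inv_unit (u2.mul ul)))).map f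
        unfold Lam at this
        simpa only [map_mul, map_pow, map_ofNat] using this)
      (by
        have := q1
        unfold psi1 Lam at this
        simpa only [map_mul, map_pow] using this)
      (by
        have := q2
        unfold psi2 Lam at this
        simpa only [map_mul, map_pow] using this)
    obtain ⟨hcA, hcC⟩ := hc
    obtain ⟨d, hd⟩ : ∃ d : ZMod (p ^ r), d = (h' : ZMod (p ^ r)) - h := ⟨_, rfl⟩
    obtain ⟨J, hJ⟩ : ∃ J : Ideal (ZMod (p ^ r)), J = Ideal.span {(p : ZMod (p ^ r)) * d} := ⟨_, rfl⟩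
    -- differences
    have hx : ∀ t : ℤ, (p : ℤ) ∣ t → (t : ZMod (p ^ r)) * (4 * (h' : ZMod (p ^ r)))⁻¹ -
        (t : ZMod (p ^ r)) * (4 * (h : ZMod (p ^ r)))⁻¹ ∈ J := by
      intro t ht
      obtain ⟨k, rfl⟩ := ht
      rw [hJ, Ideal.mem_span_singleton]
      have i1 := mul_inv (u4.mul uh)
      have i2 := mul_inv (u4.mul uh')
      refine ⟨-(4 * k * (4 * (h : ZMod (p ^ r)))⁻¹ * (4 * (h' : ZMod (p ^ r)))⁻¹), ?_⟩
      rw [hd]
      push_cast
      linear_combination (-(p : ZMod (p ^ r)) * k * (4 * (h' : ZMod (p ^ r)))⁻¹) * i1 +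
        ((p : ZMod (p ^ r)) * k * (4 * (h : ZMod (p ^ r)))⁻¹) * i2
    have heh : eh p r t1 t2 t3 h' - eh p r t1 t2 t3 h ∈ J :=
      EE_congr _ (hx t1 ht1) (hx t2 ht2) (hx t3 ht3)
    have hek : ek p r t1 t2 t3 h' - ek p r t1 t2 t3 h ∈ J :=
      EK_congr _ (hx t1 ht1) (hx t2 ht2) (hx t3 ht3)
    have ue := eh_unit (r := r) (h := h) hp h7 hr ht1 ht2 ht3
    have ue' := eh_unit (r := r) (h := h') hp h7 hr ht1 ht2 ht3
    have uk := kap_unit (r := r) (h := h) hp h7 hr ht1 ht2 ht3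
    have hkap : kap p r t1 t2 t3 h' - kap p r t1 t2 t3 h ∈ J := by
      have e : kap p r t1 t2 t3 h' - kap p r t1 t2 t3 h =
          -((eh p r t1 t2 t3 h')⁻¹ * (ek p r t1 t2 t3 h' - ek p r t1 t2 t3 h)) -
          ek p r t1 t2 t3 h * ((eh p r t1 t2 t3 h')⁻¹ - (eh p r t1 t2 t3 h)⁻¹) := by
        unfold kap; ring
      rw [e]
      exact J.sub_mem (J.neg_mem (J.mul_mem_left _ hek)) (J.mul_mem_left _ (inv_congr J ue' ue heh))
    have hgam : eh p r t1 t2 t3 h ^ 2 * kap p r t1 t2 t3 h -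
        eh p r t1 t2 t3 h' ^ 2 * kap p r t1 t2 t3 h' ∈ J := by
      have e : eh p r t1 t2 t3 h ^ 2 * kap p r t1 t2 t3 h -
          eh p r t1 t2 t3 h' ^ 2 * kap p r t1 t2 t3 h' =
          -((eh p r t1 t2 t3 h' + eh p r t1 t2 t3 h) * kap p r t1 t2 t3 h *
            (eh p r t1 t2 t3 h' - eh p r t1 t2 t3 h)) -
          eh p r t1 t2 t3 h' ^ 2 * (kap p r t1 t2 t3 h' - kap p r t1 t2 t3 h) := by ring
      rw [e]
      exact J.sub_mem (J.neg_mem (J.mul_mem_left _ heh)) (J.mul_mem_left _ hkap)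
    rw [hJ, Ideal.mem_span_singleton] at hgam
    obtain ⟨g, hg⟩ := hgam
    obtain ⟨P, hP⟩ : ∃ P : ZMod (p ^ r), P = (h' : ZMod (p ^ r)) ^ 5 + h' ^ 4 * h + h' ^ 3 * h ^ 2 +
      h' ^ 2 * h ^ 3 + h' * h ^ 4 + h ^ 5 := ⟨_, rfl⟩
    have hdp : d ∈ Ideal.span {(p : ZMod (p ^ r))} := by
      rw [Ideal.mem_span_singleton, hd]
      have h3 : (p : ℤ) ∣ h' - h := by
        have := dvd_sub hh' hh
        rwa [sub_sub_sub_cancel_right] at this
      obtain ⟨k, hk⟩ := h3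
      refine ⟨k, ?_⟩
      have := congrArg (fun x : ℤ => (x : ZMod (p ^ r))) hk
      push_cast at this
      exact this
    have uP : IsUnit P := by
      have h6 : IsUnit (6 : ZMod (p ^ r)) := by
        have := unit_small (r := r) hp h7 (n := 6) (by norm_num)
        simpa using this
      apply unit_of_sub hp hr (h6.mul (uh.pow 5))
      have e : P - 6 * (h : ZMod (p ^ r)) ^ 5 = ((h' : ZMod (p ^ r)) ^ 4 + 2 * h' ^ 3 * h +
          3 * h' ^ 2 * h ^ 2 + 4 * h' * h ^ 3 + 5 * h ^ 4) * d := by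
        rw [hP, hd]; ring
      rw [e]
      exact Ideal.mul_mem_left _ _ hdp
    have hC : eh p r t1 t2 t3 h ^ 2 * kap p r t1 t2 t3 h * (h' : ZMod (p ^ r)) ^ 6 -
        eh p r t1 t2 t3 h' ^ 2 * kap p r t1 t2 t3 h' * (h : ZMod (p ^ r)) ^ 6 ∈ I := by
      rw [← Ideal.Quotient.eq, ← hf]
      simp only [map_mul, map_pow]
      exact hcC
    have hdI : (p : ZMod (p ^ r)) ^ s * d = 0 := by
      rw [hI] at hC
      have uW : IsUnit (eh p r t1 t2 t3 h ^ 2 * kap p r t1 t2 t3 h * P +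
          (h : ZMod (p ^ r)) ^ 6 * (p * g)) := by
        apply unit_of_sub hp hr (((ue.pow 2).mul uk).mul uP)
        rw [add_sub_cancel_left, Ideal.mem_span_singleton]
        exact ⟨(h : ZMod (p ^ r)) ^ 6 * g, by ring⟩
      have : (p : ZMod (p ^ r)) ^ s * d * (eh p r t1 t2 t3 h ^ 2 * kap p r t1 t2 t3 h * P +
          (h : ZMod (p ^ r)) ^ 6 * (p * g)) = 0 := by
        rw [hP]
        have hd' : d * ((h' : ZMod (p ^ r)) ^ 5 + h' ^ 4 * h + h' ^ 3 * h ^ 2 +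
          h' ^ 2 * h ^ 3 + h' * h ^ 4 + h ^ 5) = (h' : ZMod (p ^ r)) ^ 6 - h ^ 6 := by
          rw [hd]; ring
        linear_combination hC + ((p : ZMod (p ^ r)) ^ s * eh p r t1 t2 t3 h ^ 2 *
          kap p r t1 t2 t3 h) * hd' - (p : ZMod (p ^ r)) ^ s * (h : ZMod (p ^ r)) ^ 6 * hg
      exact (uW.mul_left_eq_zero).1 this
    have hJI : ∀ x ∈ J, x ∈ I := by
      intro x hx
      rw [hJ, Ideal.mem_span_singleton] at hx
      obtain ⟨y, rfl⟩ := hx
      rw [hI]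
      linear_combination ((p : ZMod (p ^ r)) * y) * hdI
    have hH : f h' = f h := by
      rw [hf, Ideal.Quotient.eq, hI, ← hd]
      exact hdI
    have hK : f (kap p r t1 t2 t3 h') = f (kap p r t1 t2 t3 h) := by
      rw [hf, Ideal.Quotient.eq]
      exact hJI _ hkap
    constructor
    · rw [hH, hK] at hcA
      have h3 : f l = f l' := by
        apply (((uk.map f).mul (uh.map f))).mul_left_cancel
        linear_combination hcA
      rw [hf, Ideal.Quotient.eq, hI] at h3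
      push_cast
      exact h3
    · push_cast
      rw [hd] at hdI
      linear_combination (-1 : ZMod (p ^ r)) * hdI

end Pool.Agent.Y924.R7.Inj
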