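import Pool.Agent.Y924.R7.Bas

set_option autoImplicit false

/-!
# Two-dimensional exponential sums with a locally linear phase
-/

namespace Pool.Agent.Y924.R7.Lin

open Finset
open Pool.Agent.Y766.R7 Pool.Agent.Y779.R3 Pool.Agent.Y924.R7

/-! ### classes -/

/-- first term of a class -/
def AA (P a u : ℤ) : ℤ := -((u - a) / P)

theorem AA_le {P : ℤ} (hP : 0 < P) (a u x : ℤ) : AA P a u ≤ x ↔ a ≤ u + P * x := by
  unfold AA
  rw [neg_le, Int.le_ediv_iff_mul_le hP]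
  constructor <;> intro h <;> linarith

theorem class_sum (F : ℤ → ℂ) (P : ℤ) (hP : 0 < P) (p l0 a b : ℤ) (hpP : p ∣ P) :
    ∑ l ∈ (Ico a b).filter (fun l => p ∣ l - l0), F l =
      ∑ u ∈ (Ico 0 P).filter (fun u => p ∣ u - l0), ∑ x ∈ Ico (AA P a u) (AA P b u),
        F (u + P * x) := by
  classical
  have hmaps : ∀ l ∈ (Ico a b).filter (fun l => p ∣ l - l0),
      l % P ∈ (Ico 0 P).filter (fun u => p ∣ u - l0) := by
    intro l hl
    rw [mem_filter] at hl ⊢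
    refine ⟨mem_Ico.2 ⟨Int.emod_nonneg _ hP.ne', Int.emod_lt_of_pos _ hP⟩, ?_⟩
    have : l % P - l0 = (l - l0) - P * (l / P) := by rw [Int.emod_def]; ring
    rw [this]
    exact dvd_sub hl.2 (Dvd.dvd.mul_right hpP _)
  rw [← Finset.sum_fiberwise_of_maps_to hmaps]
  apply Finset.sum_congr rfl
  intro u hu
  rw [mem_filter, mem_Ico] at hu
  have hinj : Function.Injective (fun x : ℤ => u + P * x) := by
    intro x y hxy
    have h1 : P * x = P * y := by simpa using hxy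
    exact mul_left_cancel₀ hP.ne' h1
  have e : ((Ico a b).filter (fun l => p ∣ l - l0)).filter (fun l => l % P = u) =
      (Ico (AA P a u) (AA P b u)).map ⟨fun x => u + P * x, hinj⟩ := by
    ext l
    rw [mem_filter, mem_filter, mem_map]
    simp only [mem_Ico, Function.Embedding.coeFn_mk]
    constructor
    · rintro ⟨⟨⟨h1, h2⟩, _⟩, h4⟩
      have h5 : u + P * (l / P) = l := by rw [← h4]; exact Int.emod_add_mul_ediv l P
      refine ⟨l / P, ⟨?_, ?_⟩, h5⟩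
      · rw [AA_le hP, h5]; exact h1
      · rw [← not_le, AA_le hP, h5, not_le]; exact h2
    · rintro ⟨x, ⟨h1, h2⟩, h3⟩
      rw [AA_le hP, h3] at h1
      rw [← not_le, AA_le hP, h3, not_le] at h2
      refine ⟨⟨⟨h1, h2⟩, ?_⟩, ?_⟩
      · rw [← h3]
        have : u + P * x - l0 = (u - l0) + P * x := by ring
        rw [this]
        exact dvd_add hu.2 (Dvd.dvd.mul_right hpP _)
      · rw [← h3, Int.add_mul_emod_self_left]
        exact Int.emod_eq_of_lt hu.1.1 hu.1.2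
  rw [e, Finset.sum_map]
  rfl

/-! ### geometric sums -/

theorem geo (f : ℤ → ℂ) (z : ℂ) (hf : ∀ x, f (x + 1) = z * f x) (hn : ∀ x, ‖f x‖ ≤ 1)
    (hz : z ≠ 1) (A B : ℤ) : ‖∑ x ∈ Ico A B, f x‖ ≤ 2 / ‖z - 1‖ := by
  have hz0 : 0 < ‖z - 1‖ := norm_pos_iff.2 (sub_ne_zero.2 hz)
  rcases lt_or_ge B A with h | h
  · rw [Finset.Ico_eq_empty (by omega), Finset.sum_empty, norm_zero]
    positivity
  · obtain ⟨n, hn'⟩ : ∃ n : ℕ, B = A + n := ⟨(B - A).toNat, by omega⟩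
    have key : ∀ n : ℕ, (z - 1) * ∑ x ∈ Ico A (A + n), f x = f (A + n) - f A := by
      intro n
      induction n with
      | zero => simp
      | succ n ih =>
        have e : Ico A (A + ((n + 1 : ℕ) : ℤ)) = insert (A + (n:ℤ)) (Ico A (A + n)) := by
          ext x
          rw [mem_insert, mem_Ico, mem_Ico]
          push_cast
          omega
        rw [e, Finset.sum_insert (by rw [mem_Ico]; omega), mul_add, ih]
        have e2 : A + ((n + 1 : ℕ) : ℤ) = (A + n) + 1 := by push_cast; ring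
        rw [e2, hf]
        ring
    rw [hn', le_div_iff₀ hz0, mul_comm, ← norm_mul, key]
    calc ‖f (A + n) - f A‖ ≤ ‖f (A + n)‖ + ‖f A‖ := norm_sub_le _ _
      _ ≤ 1 + 1 := add_le_add (hn _) (hn _)
      _ = 2 := by norm_num

/-- the bound of a geometric sum of ratio `e(b/q)` -/
noncomputable def gg (q b : ℕ) : ℝ := (q:ℝ) / 2 * (1 / (b:ℝ) + 1 / ((q:ℝ) - b))

theorem sin_lower {t : ℝ} (h0 : 0 ≤ t) (h1 : t ≤ 1) : 2 * t * (1 - t) ≤ Real.sin (Real.pi * t) := by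
  have hpi := Real.pi_pos
  rcases le_total t (1/2) with h | h
  · have h2 := Real.mul_le_sin (x := Real.pi * t) (by positivity) (by nlinarith)
    have e : 2 / Real.pi * (Real.pi * t) = 2 * t := by field_simp
    rw [e] at h2
    nlinarith
  · have h2 := Real.mul_le_sin (x := Real.pi * (1 - t)) (mul_nonneg hpi.le (by linarith))
      (by nlinarith)
    have e : 2 / Real.pi * (Real.pi * (1 - t)) = 2 * (1 - t) := by field_simp
    rw [e] at h2
    have e2 : Real.sin (Real.pi * (1 - t)) = Real.sin (Real.pi * t) := by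
      rw [mul_sub, mul_one, Real.sin_pi_sub]
    rw [e2] at h2
    nlinarith

theorem norm_lower {q b : ℕ} (hb : 0 < b) (hbq : b < q) :
    Complex.exp (2 * Real.pi * Complex.I * b / q) ≠ 1 ∧
    2 / ‖Complex.exp (2 * Real.pi * Complex.I * b / q) - 1‖ ≤ gg q b := by
  have hbr : (0:ℝ) < b := by exact_mod_cast hb
  have hqr : (b:ℝ) < q := by exact_mod_cast hbq
  have hq0 : (0:ℝ) < q := by linarith
  have h1 : ‖Complex.exp (2 * Real.pi * Complex.I * b / q) - 1‖ =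
      2 * Real.sin (Real.pi * (b / q)) := by
    have e : (2 * Real.pi * Complex.I * b / q : ℂ) =
        Complex.I * ((2 * (Real.pi * (b / q)) : ℝ) : ℂ) := by
      push_cast; ring
    rw [e, Complex.norm_exp_I_mul_ofReal_sub_one]
    have e2 : 2 * (Real.pi * ((b:ℝ) / q)) / 2 = Real.pi * (b / q) := by ring
    rw [e2, Real.norm_of_nonneg]
    have ht1 : (b:ℝ) / q ≤ 1 := by rw [div_le_one hq0]; exact hqr.le
    have := sin_lower (t := (b:ℝ) / q) (by positivity) ht1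
    have h3 : 0 ≤ 2 * ((b:ℝ) / q) * (1 - b / q) :=
      mul_nonneg (by positivity) (by linarith)
    linarith
  have h2 : 2 * ((b:ℝ) / q) * (1 - b / q) ≤ Real.sin (Real.pi * (b / q)) := by
    apply sin_lower (by positivity)
    rw [div_le_one hq0]; exact hqr.le
  have h3 : 0 < 2 * ((b:ℝ) / q) * (1 - b / q) := by
    apply mul_pos (by positivity)
    rw [sub_pos, div_lt_one hq0]; exact hqr
  constructor
  · intro h
    rw [h, sub_self, norm_zero] at h1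
    linarith
  · rw [h1]
    unfold gg
    have hqb : (0:ℝ) < (q:ℝ) - b := by linarith
    have e : (q:ℝ) / 2 * (1 / (b:ℝ) + 1 / ((q:ℝ) - b)) = 2 / (2 * (2 * ((b:ℝ) / q) * (1 - b / q))) := by
      have : (1 - (b:ℝ) / q) = ((q:ℝ) - b) / q := by field_simp
      rw [this]
      field_simp
      ring
    rw [e]
    apply div_le_div_of_nonneg_left (by norm_num) (by linarith) (by linarith)

theorem gg_nonneg {q b : ℕ} (hb : b ≤ q) : 0 ≤ gg q b := by
  have : (b:ℝ) ≤ q := by exact_mod_cast hb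
  unfold gg
  have h2 : (0:ℝ) ≤ 1 / ((q:ℝ) - b) := one_div_nonneg.2 (by linarith)
  positivity

theorem sum_gg (q : ℕ) (hq : 1 ≤ q) : ∑ b ∈ Ico 1 q, gg q b ≤ q * (1 + Real.log q) := by
  have h1 : ∑ b ∈ Ico 1 q, (1:ℝ) / ((q:ℝ) - b) = ∑ b ∈ Ico 1 q, (1:ℝ) / b := by
    apply Finset.sum_nbij' (fun b => q - b) (fun b => q - b)
    · intro b hb; rw [mem_Ico] at hb ⊢; omega
    · intro b hb; rw [mem_Ico] at hb ⊢; omega
    · intro b hb; rw [mem_Ico] at hb; omega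
    · intro b hb; rw [mem_Ico] at hb; omega
    · intro b hb
      rw [mem_Ico] at hb
      rw [Nat.cast_sub hb.2.le]
  have h2 : ∑ b ∈ Ico 1 q, (1:ℝ) / b = ((harmonic (q - 1) : ℚ) : ℝ) := by
    rw [Finset.sum_Ico_eq_sum_range]
    unfold harmonic
    push_cast
    apply Finset.sum_congr rfl
    intro i _
    rw [one_div, add_comm]
  have h3 := harmonic_le_one_add_log (q - 1)
  have h4 : Real.log ((q - 1 : ℕ) : ℝ) ≤ Real.log q := by
    rcases Nat.eq_zero_or_pos (q - 1) with h | h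
    · rw [h, Nat.cast_zero, Real.log_zero]
      exact Real.log_nonneg (by exact_mod_cast hq)
    · apply Real.log_le_log (by exact_mod_cast h)
      exact_mod_cast Nat.sub_le q 1
  have h5 : ∑ b ∈ Ico 1 q, gg q b = q * ∑ b ∈ Ico 1 q, (1:ℝ) / b := by
    unfold gg
    rw [← Finset.mul_sum, Finset.sum_add_distrib, h1]
    ring
  rw [h5, h2]
  apply mul_le_mul_of_nonneg_left _ (Nat.cast_nonneg _)
  linarith

/-! ### fibres -/

theorem card_class {q N : ℕ} (hq : 0 < q) (u0 : ℤ) :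
    ((Ico (0:ℤ) ((q * N : ℕ) : ℤ)).filter (fun u => (q:ℤ) ∣ u - u0)).card ≤ N := by
  classical
  rw [← Finset.card_range N]
  have hqz : (0:ℤ) < q := by exact_mod_cast hq
  refine Finset.card_le_card_of_injOn (fun u => (u / q).toNat) ?_ ?_
  · intro u hu
    rw [coe_filter, Set.mem_ofPred_eq, mem_Ico] at hu
    rw [coe_range, Set.mem_Iio]
    have h1 : 0 ≤ u / q := Int.ediv_nonneg hu.1.1 hqz.le
    have h2 : u / q < N := by
      apply Int.ediv_lt_of_lt_mul hqz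
      have := hu.1.2
      rw [Finset.card_range] at this
      push_cast at this
      linarith
    show (u / (q:ℤ)).toNat < N
    omega
  · intro u hu v hv huv
    rw [coe_filter, Set.mem_ofPred_eq, mem_Ico] at hu hv
    have h1 : 0 ≤ u / q := Int.ediv_nonneg hu.1.1 hqz.le
    have h1' : 0 ≤ v / q := Int.ediv_nonneg hv.1.1 hqz.le
    have h2 : u / q = v / q := by
      simp only at huv
      omega
    have h3 : (q:ℤ) ∣ u - v := by
      have := dvd_sub hu.2 hv.2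
      rwa [sub_sub_sub_cancel_right] at this
    have h4 : u % q = v % q :=
      Int.emod_eq_emod_iff_emod_sub_eq_zero.2 (Int.emod_eq_zero_of_dvd h3)
    have h5 := Int.emod_add_mul_ediv u q
    have h6 := Int.emod_add_mul_ediv v q
    rw [h2, h4] at h5
    linarith

theorem fib_sum {ι : Type} [DecidableEq ι] (S : Finset ι) (f1 f2 : ι → ℕ) (q M : ℕ) (g : ℕ → ℝ)
    (hg : ∀ b ∈ Ico 1 q, 0 ≤ g b) (h1 : ∀ i ∈ S, f1 i ∈ Ico 1 q) (h2 : ∀ i ∈ S, f2 i ∈ Ico 1 q)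
    (hM : ∀ i ∈ S, (S.filter (fun k => f1 k = f1 i ∧ f2 k = f2 i)).card ≤ M) :
    ∑ i ∈ S, g (f1 i) * g (f2 i) ≤ M * (∑ b ∈ Ico 1 q, g b) ^ 2 := by
  classical
  have hmaps : ∀ i ∈ S, (f1 i, f2 i) ∈ (Ico 1 q) ×ˢ (Ico 1 q) := by
    intro i hi
    rw [mem_product]
    exact ⟨h1 i hi, h2 i hi⟩
  rw [← Finset.sum_fiberwise_of_maps_to (g := fun i => (f1 i, f2 i)) hmaps, pow_two,
    Finset.sum_mul_sum, ← Finset.sum_product', Finset.mul_sum]
  apply Finset.sum_le_sum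
  intro b hb
  rw [mem_product] at hb
  have e : ∑ i ∈ S with (f1 i, f2 i) = b, g (f1 i) * g (f2 i) =
      ((S.filter (fun i => (f1 i, f2 i) = b)).card : ℝ) * (g b.1 * g b.2) := by
    rw [← nsmul_eq_mul, ← Finset.sum_const]
    apply Finset.sum_congr rfl
    intro i hi
    rw [mem_filter] at hi
    rw [← hi.2]
  rw [e]
  apply mul_le_mul_of_nonneg_right _ (mul_nonneg (hg _ hb.1) (hg _ hb.2))
  rcases Finset.eq_empty_or_nonempty (S.filter (fun i => (f1 i, f2 i) = b)) with h | ⟨i, hi⟩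
  · rw [h]; simp
  · rw [mem_filter] at hi
    have h3 := hM i hi.1
    have e2 : S.filter (fun i => (f1 i, f2 i) = b) =
        S.filter (fun k => f1 k = f1 i ∧ f2 k = f2 i) := by
      apply Finset.filter_congr
      intro k _
      rw [← hi.2, Prod.mk.injEq]
    rw [e2]
    exact_mod_cast h3

/-! ### the theorem -/

theorem val_mod {p r : ℕ} [NeZero (p ^ r)] {j : ℕ} (hj : j ≤ r) (β : ZMod (p ^ r)) :
    (p : ZMod (p ^ r)) ^ (r - j) * β = (p : ZMod (p ^ r)) ^ (r - j) * ((β.val % p ^ j : ℕ) : ZMod (p ^ r)) := by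
  have h1 : (β.val % p ^ j : ℕ) + p ^ j * (β.val / p ^ j) = β.val := Nat.mod_add_div _ _
  have h2 : β = ((β.val % p ^ j : ℕ) : ZMod (p ^ r)) +
      (p : ZMod (p ^ r)) ^ j * ((β.val / p ^ j : ℕ) : ZMod (p ^ r)) := by
    conv_lhs => rw [← ZMod.natCast_zmod_val β, ← h1]
    push_cast
    ring
  have h3 : (p : ZMod (p ^ r)) ^ (r - j) * (p : ZMod (p ^ r)) ^ j = 0 := by
    rw [← pow_add]
    exact pi_zero (by omega)
  conv_lhs => rw [h2]
  linear_combination ((β.val / p ^ j : ℕ) : ZMod (p ^ r)) * h3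

theorem lin : S_LIN := by
  intro p r τ hne hp hp2 hτ l0 h0 T hT1 hT2 ph ψ1 ψ2 hunit hloc hinj α β L K
  classical
  obtain ⟨T', hT'⟩ := hT1
  have hT'p : ¬ (p : ℤ) ∣ T' := by
    rintro ⟨k, rfl⟩
    apply hT2
    refine ⟨k, ?_⟩
    rw [hT', pow_succ]; ring
  have uT' : IsUnit ((T' : ℤ) : ZMod (p ^ r)) := unit_int hp hT'p
  obtain ⟨ρ, hρ⟩ : ∃ ρ, ρ = r - τ := ⟨_, rfl⟩
  obtain ⟨c, hc⟩ : ∃ c, c = (ρ + 1) / 2 := ⟨_, rfl⟩
  obtain ⟨j, hj⟩ : ∃ j, j = ρ / 2 := ⟨_, rfl⟩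
  have hcj : c + j = ρ := by omega
  have hj1 : 1 ≤ j := by omega
  have hjc : j ≤ c := by omega
  have hcj1 : c ≤ j + 1 := by omega
  have hjr : j ≤ r := by omega
  have hrj : r - j = τ + c := by omega
  have hp0 : 0 < p := hp.pos
  have hTR : ((T : ℤ) : ZMod (p ^ r)) = (p : ZMod (p ^ r)) ^ τ * T' := by
    rw [hT']; push_cast; ring
  have hTc : ((T : ℤ) : ZMod (p ^ r)) * ((p : ZMod (p ^ r)) ^ c) ^ 2 = 0 := by
    have h1 : (p : ZMod (p ^ r)) ^ (τ + c + c) = 0 := pi_zero (by omega)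
    rw [hTR]
    have h2 : (p : ZMod (p ^ r)) ^ τ * T' * ((p : ZMod (p ^ r)) ^ c) ^ 2 =
        (p : ZMod (p ^ r)) ^ (τ + c + c) * T' := by rw [pow_add, pow_add]; ring
    rw [h2, h1, zero_mul]
  have hTP : ∀ y : ZMod (p ^ r), ((T : ℤ) : ZMod (p ^ r)) * (p : ZMod (p ^ r)) ^ c * y =
      (p : ZMod (p ^ r)) ^ (r - j) * (T' * y) := by
    intro y
    rw [hTR, hrj, pow_add]; ring
  obtain ⟨P, hP⟩ : ∃ P : ℤ, P = (p : ℤ) ^ c := ⟨_, rfl⟩
  have hP0 : 0 < P := by rw [hP]; positivity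
  have hpP : (p : ℤ) ∣ P := by rw [hP]; exact dvd_pow_self _ (by omega)
  obtain ⟨q, hq⟩ : ∃ q : ℕ, q = p ^ j := ⟨_, rfl⟩
  have hq0 : 0 < q := by rw [hq]; positivity
  -- the residues
  obtain ⟨bb, hbb⟩ : ∃ bb : (ℤ → ℤ → ZMod (p ^ r)) → ℤ × ℤ → ℕ,
    bb = fun ψ i => (((T' : ℤ) : ZMod (p ^ r)) * ψ i.1 i.2).val % q := ⟨_, rfl⟩
  have hbmem : ∀ ψ : ℤ → ℤ → ZMod (p ^ r), ∀ i : ℤ × ℤ, IsUnit (ψ i.1 i.2) →
      bb ψ i ∈ Ico 1 q := by
    intro ψ i hu
    rw [mem_Ico, hbb]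
    refine ⟨?_, Nat.mod_lt _ hq0⟩
    by_contra hcon
    have h1 : (((T' : ℤ) : ZMod (p ^ r)) * ψ i.1 i.2).val % q = 0 := by simpa using hcon
    have h2 : q ∣ (((T' : ℤ) : ZMod (p ^ r)) * ψ i.1 i.2).val := Nat.dvd_of_mod_eq_zero h1
    have h3 : p ∣ (((T' : ℤ) : ZMod (p ^ r)) * ψ i.1 i.2).val :=
      (by rw [hq]; exact dvd_pow_self p (by omega) : p ∣ q).trans h2
    obtain ⟨m, hm⟩ := h3
    have h4 : ((T' : ℤ) : ZMod (p ^ r)) * ψ i.1 i.2 = p * (m : ZMod (p ^ r)) := by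
      rw [← Nat.cast_mul, ← hm, ZMod.natCast_zmod_val]
    have h5 := uT'.mul hu
    rw [h4] at h5
    exact not_unit_pi hp (by omega) _ h5
  -- one geometric sum
  have hgeo : ∀ ψ : ℤ → ℤ → ZMod (p ^ r), ∀ i : ℤ × ℤ, IsUnit (ψ i.1 i.2) → ∀ A B : ℤ,
      ‖∑ x ∈ Ico A B, (ZMod.stdAddChar (((T : ℤ) : ZMod (p ^ r)) * (p : ZMod (p ^ r)) ^ c *
        (ψ i.1 i.2 * (x : ZMod (p ^ r)))) : ℂ)‖ ≤ gg q (bb ψ i) := by
    intro ψ i hu A B
    have hm := hbmem ψ i hu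
    rw [mem_Ico] at hm
    obtain ⟨hz1, hz2⟩ := norm_lower (q := q) (b := bb ψ i) (by omega) hm.2
    obtain ⟨z, hz⟩ : ∃ z : ℂ, z = Complex.exp (2 * Real.pi * Complex.I * (bb ψ i : ℕ) / q) :=
      ⟨_, rfl⟩
    rw [← hz] at hz1 hz2
    have hzz : (ZMod.stdAddChar (((T : ℤ) : ZMod (p ^ r)) * (p : ZMod (p ^ r)) ^ c *
        ψ i.1 i.2) : ℂ) = z := by
      rw [hTP, val_mod hjr, ← hq]
      have e : (p : ZMod (p ^ r)) ^ (r - j) *
          (((((T' : ℤ) : ZMod (p ^ r)) * ψ i.1 i.2).val % q : ℕ) : ZMod (p ^ r)) =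
          (((p ^ (r - j) * bb ψ i : ℕ) : ℤ) : ZMod (p ^ r)) := by
        have e3 : (((T' : ℤ) : ZMod (p ^ r)) * ψ i.1 i.2).val % q = bb ψ i := by rw [hbb]
        rw [e3]
        push_cast
        ring
      rw [e, ZMod.stdAddChar_coe, hz]
      congr 1
      have hpc : (p : ℂ) ≠ 0 := by exact_mod_cast hp.ne_zero
      have e2 : (p:ℂ) ^ r = (p:ℂ) ^ (r - j) * (p:ℂ) ^ j := by
        rw [← pow_add]; congr 1; omega
      rw [hq]
      push_cast
      rw [e2]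
      field_simp
    refine le_trans (geo _ z ?_ ?_ hz1 A B) hz2
    · intro x
      rw [← hzz, ← AddChar.map_add_eq_mul]
      congr 1
      push_cast
      ring
    · intro x
      exact le_of_eq (AddChar.norm_apply _ _)
  -- the decomposition
  have hdec : ∑ l ∈ (Ico α (α + L)).filter (fun l => (p : ℤ) ∣ l - l0),
      ∑ h ∈ (Ico β (β + K)).filter (fun h => (p : ℤ) ∣ h - h0),
        (ZMod.stdAddChar (ph l h) : ℂ) =
      ∑ u ∈ (Ico 0 P).filter (fun u => (p : ℤ) ∣ u - l0),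
        ∑ w ∈ (Ico 0 P).filter (fun w => (p : ℤ) ∣ w - h0),
          (ZMod.stdAddChar (ph u w) : ℂ) *
          ((∑ x ∈ Ico (AA P α u) (AA P (α + L) u), (ZMod.stdAddChar (((T : ℤ) : ZMod (p ^ r)) *
            (p : ZMod (p ^ r)) ^ c * (ψ1 u w * (x : ZMod (p ^ r)))) : ℂ)) *
          (∑ y ∈ Ico (AA P β w) (AA P (β + K) w), (ZMod.stdAddChar (((T : ℤ) : ZMod (p ^ r)) *
            (p : ZMod (p ^ r)) ^ c * (ψ2 u w * (y : ZMod (p ^ r)))) : ℂ))) := by
    rw [class_sum _ P hP0 p l0 α (α + L) hpP]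
    apply Finset.sum_congr rfl
    intro u hu
    rw [mem_filter] at hu
    have e1 : ∀ x ∈ Ico (AA P α u) (AA P (α + L) u),
        ∑ h ∈ (Ico β (β + K)).filter (fun h => (p : ℤ) ∣ h - h0),
          (ZMod.stdAddChar (ph (u + P * x) h) : ℂ) =
        ∑ w ∈ (Ico 0 P).filter (fun w => (p : ℤ) ∣ w - h0),
          ∑ y ∈ Ico (AA P β w) (AA P (β + K) w),
            (ZMod.stdAddChar (ph (u + P * x) (w + P * y)) : ℂ) := by
      intro x _
      rw [class_sum _ P hP0 p h0 β (β + K) hpP]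
    rw [Finset.sum_congr rfl e1, Finset.sum_comm]
    apply Finset.sum_congr rfl
    intro w hw
    rw [mem_filter] at hw
    rw [Finset.sum_mul_sum, Finset.mul_sum]
    apply Finset.sum_congr rfl
    intro x _
    rw [Finset.mul_sum]
    apply Finset.sum_congr rfl
    intro y _
    rw [hP, hloc c (by omega) hTc u w hu.2 hw.2 x y, mul_add, AddChar.map_add_eq_mul,
      AddChar.map_add_eq_mul]
  rw [hdec]
  have hX : ∀ u ∈ (Ico 0 P).filter (fun u => (p : ℤ) ∣ u - l0),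
      ∀ w ∈ (Ico 0 P).filter (fun w => (p : ℤ) ∣ w - h0),
      ‖(ZMod.stdAddChar (ph u w) : ℂ) *
          ((∑ x ∈ Ico (AA P α u) (AA P (α + L) u), (ZMod.stdAddChar (((T : ℤ) : ZMod (p ^ r)) *
            (p : ZMod (p ^ r)) ^ c * (ψ1 u w * (x : ZMod (p ^ r)))) : ℂ)) *
          (∑ y ∈ Ico (AA P β w) (AA P (β + K) w), (ZMod.stdAddChar (((T : ℤ) : ZMod (p ^ r)) *
            (p : ZMod (p ^ r)) ^ c * (ψ2 u w * (y : ZMod (p ^ r)))) : ℂ)))‖ ≤
      gg q (bb ψ1 (u, w)) * gg q (bb ψ2 (u, w)) := by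
    intro u hu w hw
    rw [mem_filter] at hu hw
    obtain ⟨hu1, hu2⟩ := hunit u w hu.2 hw.2
    rw [norm_mul, norm_mul, AddChar.norm_apply, one_mul]
    apply mul_le_mul (hgeo ψ1 (u, w) hu1 _ _) (hgeo ψ2 (u, w) hu2 _ _) (norm_nonneg _)
    have := hbmem ψ1 (u, w) hu1
    rw [mem_Ico] at this
    exact gg_nonneg this.2.le
  refine (norm_sum_le _ _).trans ?_
  have hX2 : ∑ u ∈ (Ico 0 P).filter (fun u => (p : ℤ) ∣ u - l0),
      ‖∑ w ∈ (Ico 0 P).filter (fun w => (p : ℤ) ∣ w - h0),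
        (ZMod.stdAddChar (ph u w) : ℂ) *
          ((∑ x ∈ Ico (AA P α u) (AA P (α + L) u), (ZMod.stdAddChar (((T : ℤ) : ZMod (p ^ r)) *
            (p : ZMod (p ^ r)) ^ c * (ψ1 u w * (x : ZMod (p ^ r)))) : ℂ)) *
          (∑ y ∈ Ico (AA P β w) (AA P (β + K) w), (ZMod.stdAddChar (((T : ℤ) : ZMod (p ^ r)) *
            (p : ZMod (p ^ r)) ^ c * (ψ2 u w * (y : ZMod (p ^ r)))) : ℂ)))‖ ≤
      ∑ i ∈ ((Ico 0 P).filter (fun u => (p : ℤ) ∣ u - l0)) ×ˢ
        ((Ico 0 P).filter (fun w => (p : ℤ) ∣ w - h0)), gg q (bb ψ1 i) * gg q (bb ψ2 i) := by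
    rw [Finset.sum_product]
    apply Finset.sum_le_sum
    intro u hu
    refine (norm_sum_le _ _).trans ?_
    exact Finset.sum_le_sum fun w hw => hX u hu w hw
  refine hX2.trans ?_
  obtain ⟨N, hN⟩ : ∃ N : ℕ, N = p ^ (c - j) := ⟨_, rfl⟩
  have hPN : P = ((q * N : ℕ) : ℤ) := by
    rw [hP, hq, hN, ← pow_add]
    push_cast
    congr 1
    omega
  have hfib : ∑ i ∈ ((Ico 0 P).filter (fun u => (p : ℤ) ∣ u - l0)) ×ˢ
        ((Ico 0 P).filter (fun w => (p : ℤ) ∣ w - h0)), gg q (bb ψ1 i) * gg q (bb ψ2 i) ≤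
      ((N * N : ℕ) : ℝ) * (∑ b ∈ Ico 1 q, gg q b) ^ 2 := by
    apply fib_sum _ (bb ψ1) (bb ψ2) q (N * N) (gg q)
    · intro b hb
      rw [mem_Ico] at hb
      exact gg_nonneg hb.2.le
    · intro i hi
      rw [mem_product, mem_filter, mem_filter] at hi
      exact hbmem ψ1 i (hunit i.1 i.2 hi.1.2 hi.2.2).1
    · intro i hi
      rw [mem_product, mem_filter, mem_filter] at hi
      exact hbmem ψ2 i (hunit i.1 i.2 hi.1.2 hi.2.2).2
    · intro i hi
      rw [mem_product, mem_filter, mem_filter] at hi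
      have hcan : ∀ ψ : ℤ → ℤ → ZMod (p ^ r), ∀ k : ℤ × ℤ, bb ψ k = bb ψ i →
          (p : ZMod (p ^ r)) ^ (r - j) * ψ k.1 k.2 = (p : ZMod (p ^ r)) ^ (r - j) * ψ i.1 i.2 := by
        intro ψ k hk
        have h1 := val_mod hjr (((T' : ℤ) : ZMod (p ^ r)) * ψ k.1 k.2)
        have h2 := val_mod hjr (((T' : ℤ) : ZMod (p ^ r)) * ψ i.1 i.2)
        rw [hbb] at hk
        simp only at hk
        rw [← hq, hk] at h1
        rw [← hq, ← h1] at h2
        apply uT'.mul_left_cancel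
        linear_combination -h2
      have hsub : (((Ico 0 P).filter (fun u => (p : ℤ) ∣ u - l0)) ×ˢ
          ((Ico 0 P).filter (fun w => (p : ℤ) ∣ w - h0))).filter
            (fun k => bb ψ1 k = bb ψ1 i ∧ bb ψ2 k = bb ψ2 i) ⊆
          ((Ico (0:ℤ) ((q * N : ℕ) : ℤ)).filter (fun u => (q:ℤ) ∣ u - i.1)) ×ˢ
          ((Ico (0:ℤ) ((q * N : ℕ) : ℤ)).filter (fun u => (q:ℤ) ∣ u - i.2)) := by
        intro k hk
        rw [mem_filter, mem_product, mem_filter, mem_filter] at hk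
        obtain ⟨⟨⟨hk1, hk2⟩, hk3, hk4⟩, hk5, hk6⟩ := hk
        obtain ⟨h7, h8⟩ := hinj (r - j) k.1 k.2 i.1 i.2 hk2 hk4 hi.1.2 hi.2.2
          (hcan ψ1 k hk5) (hcan ψ2 k hk6)
        have hdv : ∀ x : ℤ, (p : ZMod (p ^ r)) ^ (r - j) * ((x : ℤ) : ZMod (p ^ r)) = 0 →
            (q : ℤ) ∣ x := by
          intro x hx
          have e : (p : ZMod (p ^ r)) ^ (r - j) * ((x : ℤ) : ZMod (p ^ r)) =
              (((p : ℤ) ^ (r - j) * x : ℤ) : ZMod (p ^ r)) := by push_cast; ring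
          rw [e, ZMod.intCast_zmod_eq_zero_iff_dvd] at hx
          have e2 : ((p ^ r : ℕ) : ℤ) = (p : ℤ) ^ (r - j) * q := by
            rw [hq]; push_cast; rw [← pow_add]; congr 1; omega
          rw [e2] at hx
          exact Int.dvd_of_mul_dvd_mul_left (by positivity) hx
        rw [mem_product, mem_filter, mem_filter, ← hPN]
        exact ⟨⟨hk1, hdv _ h7⟩, ⟨hk3, hdv _ h8⟩⟩
      refine (Finset.card_le_card hsub).trans ?_
      rw [Finset.card_product]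
      exact Nat.mul_le_mul (card_class hq0 _) (card_class hq0 _)
  refine hfib.trans ?_
  -- numbers
  have hp1 : (1:ℝ) ≤ p := by exact_mod_cast hp0
  have hlogp : 0 ≤ Real.log p := Real.log_nonneg hp1
  have hlq : Real.log q ≤ r * Real.log p := by
    rw [hq]; push_cast
    rw [Real.log_pow]
    apply mul_le_mul_of_nonneg_right _ hlogp
    exact_mod_cast hjr
  have hsum0 : 0 ≤ ∑ b ∈ Ico 1 q, gg q b := by
    apply Finset.sum_nonneg
    intro b hb
    rw [mem_Ico] at hb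
    exact gg_nonneg hb.2.le
  have hs := sum_gg q hq0
  have hs2 : (∑ b ∈ Ico 1 q, gg q b) ^ 2 ≤ ((q:ℝ) * (1 + r * Real.log p)) ^ 2 := by
    apply pow_le_pow_left₀ hsum0
    refine hs.trans ?_
    apply mul_le_mul_of_nonneg_left _ (Nat.cast_nonneg _)
    linarith
  calc ((N * N : ℕ) : ℝ) * (∑ b ∈ Ico 1 q, gg q b) ^ 2
      ≤ ((N * N : ℕ) : ℝ) * ((q:ℝ) * (1 + r * Real.log p)) ^ 2 :=
        mul_le_mul_of_nonneg_left hs2 (Nat.cast_nonneg _)
    _ = (p:ℝ) ^ (c + c) * (1 + r * Real.log p) ^ 2 := by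
        have e : (p:ℝ) ^ c = q * N := by
          rw [hq, hN]; push_cast; rw [← pow_add]; congr 1; omega
        rw [pow_add, e]
        push_cast
        ring
    _ ≤ (p : ℝ) ^ 2 * (p : ℝ) ^ (r - τ) * (1 + r * Real.log p) ^ 2 := by
        apply mul_le_mul_of_nonneg_right _ (sq_nonneg _)
        rw [← pow_add]
        exact pow_le_pow_right₀ hp1 (by omega)

end Pool.Agent.Y924.R7.Lin
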