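import Pool.Agent.Y766.R7.Stm

set_option autoImplicit false

/-!
# Three van der Corput steps on average over a family
-/

namespace Pool.Agent.Y924.R7.Vdc

open Finset
open Pool.Agent.Y766.R7 (DD S_VDC)

/-- shifts of a finitely supported function -/
theorem shift_sum (g : ℤ → ℂ) (a : ℤ) (K : ℕ) (hg : ∀ h, h ∉ Ico a (a + K) → g h = 0)
    (c lo hi : ℤ) (h1 : lo + c ≤ a) (h2 : a + K ≤ hi + c) :
    ∑ h ∈ Ico lo hi, g (h + c) = ∑ h ∈ Ico a (a + K), g h := by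
  rw [Finset.sum_Ico_add' g lo hi c]
  symm
  apply Finset.sum_subset
  · intro x hx
    rw [mem_Ico] at hx ⊢
    omega
  · intro x _ hx
    exact hg x hx

theorem norm_sq_eq (z : ℂ) : ((‖z‖ ^ 2 : ℝ) : ℂ) = z * (starRingEnd ℂ) z := by
  rw [Complex.mul_conj, Complex.normSq_eq_norm_sq]

theorem sum_pairs (Q : ℕ) (g : ℤ → ℝ) (hg : ∀ v, 0 ≤ g v) (hQ : 1 ≤ Q) :
    ∑ j ∈ range Q, ∑ j' ∈ range Q, g ((j : ℤ) - j') ≤
      Q * (g 0 + ∑ v ∈ (Ioo (-(Q : ℤ)) Q).filter (· ≠ 0), g v) := by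
  have h0 : g 0 + ∑ v ∈ (Ioo (-(Q : ℤ)) Q).filter (· ≠ 0), g v = ∑ v ∈ Ioo (-(Q : ℤ)) Q, g v := by
    have hmem : (0:ℤ) ∈ Ioo (-(Q : ℤ)) Q := by rw [mem_Ioo]; omega
    rw [Finset.filter_ne' (Ioo (-(Q : ℤ)) Q) 0, Finset.add_sum_erase _ _ hmem]
  rw [h0]
  have h1 : ∀ j ∈ range Q, ∑ j' ∈ range Q, g ((j : ℤ) - j') ≤ ∑ v ∈ Ioo (-(Q : ℤ)) Q, g v := by
    intro j hj
    rw [mem_range] at hj
    have : ∑ j' ∈ range Q, g ((j : ℤ) - j') =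
        ∑ v ∈ (range Q).image (fun j' : ℕ => (j : ℤ) - j'), g v := by
      rw [Finset.sum_image]
      intro x _ y _ hxy
      simp only at hxy
      omega
    rw [this]
    apply Finset.sum_le_sum_of_subset_of_nonneg
    · intro v hv
      rw [mem_image] at hv
      obtain ⟨j', hj', rfl⟩ := hv
      rw [mem_range] at hj'
      rw [mem_Ioo]
      omega
    · intro v _ _
      exact hg v
  calc ∑ j ∈ range Q, ∑ j' ∈ range Q, g ((j : ℤ) - j')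
      ≤ ∑ _j ∈ range Q, ∑ v ∈ Ioo (-(Q : ℤ)) Q, g v := Finset.sum_le_sum h1
    _ = _ := by rw [Finset.sum_const, card_range, nsmul_eq_mul]

/-- one step -/
theorem step {ι : Type} (s : Finset ι) (F : ι → ℤ → ℂ) (a : ℤ) (K : ℕ)
    (hs : ∀ i h, h ∉ Ico a (a + K) → F i h = 0) (hb : ∀ i h, ‖F i h‖ ≤ 1)
    (D Q : ℕ) (hQ : 1 ≤ Q) (hDQ : D * Q ≤ K) :
    ∑ i ∈ s, ‖∑ h ∈ Ico a (a + K), F i h‖ ^ 2 ≤
      2 * s.card * (K:ℝ) ^ 2 / Q + 2 * K / Q *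
        ∑ v ∈ (Ioo (-(Q : ℤ)) Q).filter (· ≠ 0),
          ‖∑ i ∈ s, ∑ h ∈ Ico a (a + K), DD D v (F i) h‖ := by
  classical
  obtain ⟨lo, hlo⟩ : ∃ lo : ℤ, lo = a - D * (Q - 1) := ⟨_, rfl⟩
  obtain ⟨C, hC⟩ : ∃ C : ι → ℤ → ℂ, C = fun i v => ∑ h ∈ Ico a (a + K), DD D v (F i) h := ⟨_, rfl⟩
  have hQz : (1:ℤ) ≤ Q := by exact_mod_cast hQ
  have hDz : (0:ℤ) ≤ D := by positivity
  have hDQz : (D:ℤ) * Q ≤ K := by exact_mod_cast hDQ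
  -- the sum is stable under shifts
  have hQS : ∀ i, (Q:ℂ) * ∑ h ∈ Ico a (a + K), F i h =
      ∑ h ∈ Ico lo (a + K), ∑ j ∈ range Q, F i (h + D * j) := by
    intro i
    rw [Finset.sum_comm]
    have : ∀ j ∈ range Q, ∑ h ∈ Ico lo (a + K), F i (h + D * j) = ∑ h ∈ Ico a (a + K), F i h := by
      intro j hj
      rw [mem_range] at hj
      have hj1 : (j:ℤ) ≤ Q - 1 := by omega
      have hj2 : (D:ℤ) * j ≤ D * (Q - 1) := mul_le_mul_of_nonneg_left hj1 hDz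
      have hj3 : (0:ℤ) ≤ D * j := by positivity
      exact shift_sum (F i) a K (hs i) (D * j) lo (a + K) (by omega) (by omega)
    rw [Finset.sum_congr rfl this, Finset.sum_const, card_range, nsmul_eq_mul]
  -- the correlations
  have hcor : ∀ i, ∑ h ∈ Ico lo (a + K), ((‖∑ j ∈ range Q, F i (h + D * j)‖ ^ 2 : ℝ) : ℂ) =
      ∑ j ∈ range Q, ∑ j' ∈ range Q, C i ((j : ℤ) - j') := by
    intro i
    have h1 : ∀ h : ℤ, ((‖∑ j ∈ range Q, F i (h + D * j)‖ ^ 2 : ℝ) : ℂ) =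
        ∑ j ∈ range Q, ∑ j' ∈ range Q, F i (h + D * j) * (starRingEnd ℂ) (F i (h + D * j')) := by
      intro h
      rw [norm_sq_eq, map_sum, Finset.sum_mul_sum]
    simp_rw [h1]
    rw [Finset.sum_comm]
    apply Finset.sum_congr rfl
    intro j hj
    rw [Finset.sum_comm]
    apply Finset.sum_congr rfl
    intro j' hj'
    rw [mem_range] at hj hj'
    have hj1 : (j':ℤ) ≤ Q - 1 := by omega
    have hj2 : (D:ℤ) * j' ≤ D * (Q - 1) := mul_le_mul_of_nonneg_left hj1 hDz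
    have hj3 : (0:ℤ) ≤ D * j' := by positivity
    have h2 := shift_sum (fun g => DD D ((j:ℤ) - j') (F i) g) a K
      (fun h hh => by simp only [DD]; rw [hs i h hh, map_zero, mul_zero])
      (D * j') lo (a + K) (by omega) (by omega)
    rw [hC]
    simp only
    rw [← h2]
    apply Finset.sum_congr rfl
    intro h _
    simp only [DD]
    congr 2
    ring
  -- Cauchy
  have hcard : ((Ico lo (a + K)).card : ℝ) ≤ 2 * K := by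
    rw [Int.card_Ico]
    have h1 : (D:ℤ) * (Q - 1) ≤ K := by nlinarith
    have h2 : (a + K - lo).toNat ≤ 2 * K := by omega
    exact_mod_cast h2
  have hi : ∀ i, (Q:ℝ) ^ 2 * ‖∑ h ∈ Ico a (a + K), F i h‖ ^ 2 ≤
      2 * K * ∑ h ∈ Ico lo (a + K), ‖∑ j ∈ range Q, F i (h + D * j)‖ ^ 2 := by
    intro i
    have h1 : (Q:ℝ) ^ 2 * ‖∑ h ∈ Ico a (a + K), F i h‖ ^ 2 =
        ‖∑ h ∈ Ico lo (a + K), ∑ j ∈ range Q, F i (h + D * j)‖ ^ 2 := by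
      rw [← hQS i, norm_mul, Complex.norm_natCast]
      ring
    rw [h1]
    have h2 : ‖∑ h ∈ Ico lo (a + K), ∑ j ∈ range Q, F i (h + D * j)‖ ^ 2 ≤
        (∑ h ∈ Ico lo (a + K), ‖∑ j ∈ range Q, F i (h + D * j)‖) ^ 2 :=
      pow_le_pow_left₀ (norm_nonneg _) (norm_sum_le _ _) 2
    refine h2.trans ((sq_sum_le_card_mul_sum_sq).trans ?_)
    exact mul_le_mul_of_nonneg_right hcard (Finset.sum_nonneg fun _ _ => sq_nonneg _)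
  -- the sum over `i`
  obtain ⟨R, hR⟩ : ∃ R : ℝ, R = ∑ i ∈ s, ∑ h ∈ Ico lo (a + K),
    ‖∑ j ∈ range Q, F i (h + D * j)‖ ^ 2 := ⟨_, rfl⟩
  have hR0 : 0 ≤ R := by
    rw [hR]; exact Finset.sum_nonneg fun _ _ => Finset.sum_nonneg fun _ _ => sq_nonneg _
  have hRC : (R:ℂ) = ∑ j ∈ range Q, ∑ j' ∈ range Q, ∑ i ∈ s, C i ((j : ℤ) - j') := by
    rw [hR, Complex.ofReal_sum]
    have : ∀ i ∈ s, ((∑ h ∈ Ico lo (a + K), ‖∑ j ∈ range Q, F i (h + D * j)‖ ^ 2 : ℝ) : ℂ) =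
        ∑ j ∈ range Q, ∑ j' ∈ range Q, C i ((j : ℤ) - j') := by
      intro i _
      rw [← hcor i, Complex.ofReal_sum]
    rw [Finset.sum_congr rfl this, Finset.sum_comm]
    apply Finset.sum_congr rfl
    intro j _
    rw [Finset.sum_comm]
  have hRle : R ≤ Q * (s.card * K + ∑ v ∈ (Ioo (-(Q : ℤ)) Q).filter (· ≠ 0),
      ‖∑ i ∈ s, C i v‖) := by
    have h1 : R = ‖(R:ℂ)‖ := by rw [Complex.norm_real, Real.norm_of_nonneg hR0]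
    rw [h1, hRC]
    have h2 : ‖∑ j ∈ range Q, ∑ j' ∈ range Q, ∑ i ∈ s, C i ((j : ℤ) - j')‖ ≤
        ∑ j ∈ range Q, ∑ j' ∈ range Q, ‖∑ i ∈ s, C i ((j : ℤ) - j')‖ :=
      (norm_sum_le _ _).trans (Finset.sum_le_sum fun j _ => norm_sum_le _ _)
    refine h2.trans ((sum_pairs Q (fun v => ‖∑ i ∈ s, C i v‖) (fun v => norm_nonneg _) hQ).trans ?_)
    apply mul_le_mul_of_nonneg_left _ (Nat.cast_nonneg _)
    apply add_le_add_left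
    have hCi : ∀ i ∈ s, ‖C i 0‖ ≤ K := by
      intro i _
      rw [hC]
      refine (norm_sum_le _ _).trans ?_
      have : ∀ h ∈ Ico a (a + K), ‖DD D 0 (F i) h‖ ≤ 1 := by
        intro h _
        simp only [DD]
        rw [norm_mul, RCLike.norm_conj]
        exact mul_le_one₀ (hb i _) (norm_nonneg _) (hb i _)
      refine (Finset.sum_le_sum this).trans ?_
      rw [Finset.sum_const, Int.card_Ico, nsmul_eq_mul, mul_one]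
      have : (a + K - a).toNat = K := by omega
      rw [this]
    refine (norm_sum_le _ _).trans ((Finset.sum_le_sum hCi).trans ?_)
    rw [Finset.sum_const, nsmul_eq_mul]
  have hQr : (0:ℝ) < Q := by exact_mod_cast hQ
  have hfin : (Q:ℝ) ^ 2 * ∑ i ∈ s, ‖∑ h ∈ Ico a (a + K), F i h‖ ^ 2 ≤
      2 * K * (Q * (s.card * K + ∑ v ∈ (Ioo (-(Q : ℤ)) Q).filter (· ≠ 0), ‖∑ i ∈ s, C i v‖)) := by
    rw [Finset.mul_sum]
    refine (Finset.sum_le_sum fun i _ => hi i).trans ?_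
    rw [← Finset.mul_sum, ← hR]
    exact mul_le_mul_of_nonneg_left hRle (by positivity)
  have e1 : ∑ v ∈ (Ioo (-(Q : ℤ)) Q).filter (· ≠ 0),
          ‖∑ i ∈ s, ∑ h ∈ Ico a (a + K), DD D v (F i) h‖ =
      ∑ v ∈ (Ioo (-(Q : ℤ)) Q).filter (· ≠ 0), ‖∑ i ∈ s, C i v‖ := by rw [hC]
  rw [e1]
  obtain ⟨E, hE⟩ : ∃ E : ℝ, E = ∑ v ∈ (Ioo (-(Q : ℤ)) Q).filter (· ≠ 0), ‖∑ i ∈ s, C i v‖ :=
    ⟨_, rfl⟩
  rw [← hE] at hfin ⊢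
  have h3 : 2 * (s.card:ℝ) * (K:ℝ) ^ 2 / Q + 2 * K / Q * E =
      (2 * K * (Q * (s.card * K + E))) / (Q:ℝ) ^ 2 := by
    field_simp
  rw [h3, le_div_iff₀ (by positivity)]
  linarith

theorem dd_supp {D v : ℤ} {F : ℤ → ℂ} {a : ℤ} {K : ℕ} (hs : ∀ h, h ∉ Ico a (a + K) → F h = 0) :
    ∀ h, h ∉ Ico a (a + K) → DD D v F h = 0 := by
  intro h hh
  simp only [DD]
  rw [hs h hh, map_zero, mul_zero]

theorem dd_norm {D v : ℤ} {F : ℤ → ℂ} (hb : ∀ h, ‖F h‖ ≤ 1) : ∀ h, ‖DD D v F h‖ ≤ 1 := by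
  intro h
  simp only [DD]
  rw [norm_mul, RCLike.norm_conj]
  exact mul_le_one₀ (hb _) (norm_nonneg _) (hb _)

theorem cardV (Q : ℕ) : (((Ioo (-(Q : ℤ)) Q).filter (· ≠ 0)).card : ℝ) ≤ 2 * Q := by
  have h1 : ((Ioo (-(Q : ℤ)) Q).filter (· ≠ 0)).card ≤ (Ioo (-(Q : ℤ)) Q).card :=
    Finset.card_filter_le _ _
  rw [Int.card_Ioo] at h1
  have h2 : ((Ioo (-(Q : ℤ)) Q).filter (· ≠ 0)).card ≤ 2 * Q := by omega
  exact_mod_cast h2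

/-- real arithmetic -/
theorem arith {n K q1 q2 q3 Z A1 B1 A2 B2 E : ℝ} (hn : 0 ≤ n) (hK : 0 ≤ K) (h1 : 0 < q1)
    (h2 : 0 < q2) (h3 : 0 < q3) (hZ : 0 ≤ Z) (hA1 : 0 ≤ A1) (hA2 : 0 ≤ A2)
    (hE : 0 ≤ E)
    (e1 : Z ≤ 2 * n * K ^ 2 / q1 + 2 * K / q1 * A1) (e2 : A1 ^ 2 ≤ 2 * q1 * n * B1)
    (e3 : B1 ≤ 2 * (2 * q1 * n) * K ^ 2 / q2 + 2 * K / q2 * A2)
    (e4 : A2 ^ 2 ≤ 4 * q1 * q2 * n * B2)
    (e5 : B2 ≤ 4 * q1 * q2 * (2 * n * K ^ 2 / q3) + 2 * K / q3 * E) :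
    Z ^ 4 ≤ 131072 * (n ^ 4 * K ^ 8 * (1 / q1 ^ 4 + 1 / q2 ^ 2 + 1 / q3) +
      n ^ 3 * K ^ 7 / (q1 * q2 * q3) * E) := by
  -- first two steps
  have f1 : Z ^ 2 ≤ 8 * n ^ 2 * K ^ 4 / q1 ^ 2 + 16 * K ^ 2 * n / q1 * B1 := by
    have g1 : Z ^ 2 ≤ (2 * n * K ^ 2 / q1 + 2 * K / q1 * A1) ^ 2 := pow_le_pow_left₀ hZ e1 2
    have g2 : (2 * n * K ^ 2 / q1 + 2 * K / q1 * A1) ^ 2 ≤
        2 * (2 * n * K ^ 2 / q1) ^ 2 + 2 * ((2 * K / q1) ^ 2 * A1 ^ 2) := by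
      nlinarith [sq_nonneg (2 * n * K ^ 2 / q1 - 2 * K / q1 * A1)]
    have g3 : (2 * K / q1) ^ 2 * A1 ^ 2 ≤ (2 * K / q1) ^ 2 * (2 * q1 * n * B1) :=
      mul_le_mul_of_nonneg_left e2 (sq_nonneg _)
    have g4 : 2 * (2 * n * K ^ 2 / q1) ^ 2 + 2 * ((2 * K / q1) ^ 2 * (2 * q1 * n * B1)) =
        8 * n ^ 2 * K ^ 4 / q1 ^ 2 + 16 * K ^ 2 * n / q1 * B1 := by
      field_simp
      ring
    linarith
  have f2 : Z ^ 2 ≤ 8 * n ^ 2 * K ^ 4 / q1 ^ 2 + 64 * n ^ 2 * K ^ 4 / q2 +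
      32 * n * K ^ 3 / (q1 * q2) * A2 := by
    have g1 : 16 * K ^ 2 * n / q1 * B1 ≤ 16 * K ^ 2 * n / q1 *
        (2 * (2 * q1 * n) * K ^ 2 / q2 + 2 * K / q2 * A2) :=
      mul_le_mul_of_nonneg_left e3 (by positivity)
    have g2 : 16 * K ^ 2 * n / q1 * (2 * (2 * q1 * n) * K ^ 2 / q2 + 2 * K / q2 * A2) =
        64 * n ^ 2 * K ^ 4 / q2 + 32 * n * K ^ 3 / (q1 * q2) * A2 := by
      field_simp
      ring
    linarith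
  -- third step
  obtain ⟨x, hx⟩ : ∃ x : ℝ, x = 8 * n ^ 2 * K ^ 4 / q1 ^ 2 := ⟨_, rfl⟩
  obtain ⟨y, hy⟩ : ∃ y : ℝ, y = 64 * n ^ 2 * K ^ 4 / q2 := ⟨_, rfl⟩
  obtain ⟨z, hz⟩ : ∃ z : ℝ, z = 32 * n * K ^ 3 / (q1 * q2) * A2 := ⟨_, rfl⟩
  rw [← hx, ← hy, ← hz] at f2
  have f3 : Z ^ 4 ≤ 3 * x ^ 2 + 3 * y ^ 2 + 3 * z ^ 2 := by
    have g1 : (Z ^ 2) ^ 2 ≤ (x + y + z) ^ 2 := pow_le_pow_left₀ (sq_nonneg _) f2 2
    have g2 : (x + y + z) ^ 2 ≤ 3 * x ^ 2 + 3 * y ^ 2 + 3 * z ^ 2 := by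
      nlinarith [sq_nonneg (x - y), sq_nonneg (y - z), sq_nonneg (x - z)]
    calc Z ^ 4 = (Z ^ 2) ^ 2 := by ring
      _ ≤ _ := g1.trans g2
  have f4 : z ^ 2 ≤ 32768 * n ^ 4 * K ^ 8 / q3 + 8192 * (n ^ 3 * K ^ 7 / (q1 * q2 * q3) * E) := by
    have g1 : z ^ 2 = (32 * n * K ^ 3 / (q1 * q2)) ^ 2 * A2 ^ 2 := by rw [hz]; ring
    have g2 : (32 * n * K ^ 3 / (q1 * q2)) ^ 2 * A2 ^ 2 ≤
        (32 * n * K ^ 3 / (q1 * q2)) ^ 2 * (4 * q1 * q2 * n *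
          (4 * q1 * q2 * (2 * n * K ^ 2 / q3) + 2 * K / q3 * E)) := by
      apply mul_le_mul_of_nonneg_left _ (sq_nonneg _)
      exact e4.trans (mul_le_mul_of_nonneg_left e5 (by positivity))
    have g3 : (32 * n * K ^ 3 / (q1 * q2)) ^ 2 * (4 * q1 * q2 * n *
          (4 * q1 * q2 * (2 * n * K ^ 2 / q3) + 2 * K / q3 * E)) =
        32768 * n ^ 4 * K ^ 8 / q3 + 8192 * (n ^ 3 * K ^ 7 / (q1 * q2 * q3) * E) := by
      field_simp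
      ring
    linarith
  have f5 : x ^ 2 = 64 * (n ^ 4 * K ^ 8 * (1 / q1 ^ 4)) := by rw [hx]; field_simp; ring
  have f6 : y ^ 2 = 4096 * (n ^ 4 * K ^ 8 * (1 / q2 ^ 2)) := by rw [hy]; field_simp; ring
  have p1 : 0 ≤ n ^ 4 * K ^ 8 * (1 / q1 ^ 4) := by positivity
  have p2 : 0 ≤ n ^ 4 * K ^ 8 * (1 / q2 ^ 2) := by positivity
  have p3 : 0 ≤ n ^ 4 * K ^ 8 * (1 / q3) := by positivity
  have p4 : 0 ≤ n ^ 3 * K ^ 7 / (q1 * q2 * q3) * E := by positivity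
  have f7 : 32768 * n ^ 4 * K ^ 8 / q3 = 32768 * (n ^ 4 * K ^ 8 * (1 / q3)) := by ring
  rw [f7] at f4
  have f8 : 131072 * (n ^ 4 * K ^ 8 * (1 / q1 ^ 4 + 1 / q2 ^ 2 + 1 / q3) +
      n ^ 3 * K ^ 7 / (q1 * q2 * q3) * E) = 131072 * (n ^ 4 * K ^ 8 * (1 / q1 ^ 4)) +
      131072 * (n ^ 4 * K ^ 8 * (1 / q2 ^ 2)) + 131072 * (n ^ 4 * K ^ 8 * (1 / q3)) +
      131072 * (n ^ 3 * K ^ 7 / (q1 * q2 * q3) * E) := by ring
  rw [f8]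
  linarith

theorem vdc : S_VDC := by
  classical
  intro ι s F a K hs hb D1 D2 D3 Q1 Q2 Q3 _ _ _ hQ1 hQ2 hQ3 h1 h2 h3
  obtain ⟨V1, hV1⟩ : ∃ V : Finset ℤ, V = (Ioo (-(Q1 : ℤ)) Q1).filter (· ≠ 0) := ⟨_, rfl⟩
  obtain ⟨V2, hV2⟩ : ∃ V : Finset ℤ, V = (Ioo (-(Q2 : ℤ)) Q2).filter (· ≠ 0) := ⟨_, rfl⟩
  obtain ⟨V3, hV3⟩ : ∃ V : Finset ℤ, V = (Ioo (-(Q3 : ℤ)) Q3).filter (· ≠ 0) := ⟨_, rfl⟩
  have c1 : (V1.card : ℝ) ≤ 2 * Q1 := by rw [hV1]; exact cardV Q1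
  have c2 : (V2.card : ℝ) ≤ 2 * Q2 := by rw [hV2]; exact cardV Q2
  rw [← hV1, ← hV2, ← hV3]
  have hF1s : ∀ v i h, h ∉ Ico a (a + K) → DD D1 v (F i) h = 0 := fun v i => dd_supp (hs i)
  have hF1b : ∀ v i h, ‖DD D1 v (F i) h‖ ≤ 1 := fun v i => dd_norm (hb i)
  have hF2s : ∀ w v i h, h ∉ Ico a (a + K) → DD D2 w (DD D1 v (F i)) h = 0 :=
    fun w v i => dd_supp (hF1s v i)
  have hF2b : ∀ w v i h, ‖DD D2 w (DD D1 v (F i)) h‖ ≤ 1 := fun w v i => dd_norm (hF1b v i)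
  -- step 1
  have s1 := step s F a K hs hb D1 Q1 hQ1 h1
  rw [← hV1] at s1
  obtain ⟨A1, hA1⟩ : ∃ A : ℝ, A = ∑ x ∈ V1 ×ˢ s, ‖∑ h ∈ Ico a (a + K), DD D1 x.1 (F x.2) h‖ :=
    ⟨_, rfl⟩
  have s1' : ∑ v ∈ V1, ‖∑ i ∈ s, ∑ h ∈ Ico a (a + K), DD D1 v (F i) h‖ ≤ A1 := by
    rw [hA1, Finset.sum_product]
    exact Finset.sum_le_sum fun v _ => norm_sum_le _ _
  -- step 2
  obtain ⟨B1, hB1⟩ : ∃ B : ℝ, B = ∑ x ∈ V1 ×ˢ s, ‖∑ h ∈ Ico a (a + K), DD D1 x.1 (F x.2) h‖ ^ 2 :=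
    ⟨_, rfl⟩
  have hcardP : (((V1 ×ˢ s).card : ℕ) : ℝ) ≤ 2 * Q1 * s.card := by
    rw [Finset.card_product]; push_cast
    exact mul_le_mul_of_nonneg_right c1 (Nat.cast_nonneg _)
  have hB10 : 0 ≤ B1 := by rw [hB1]; exact Finset.sum_nonneg fun _ _ => sq_nonneg _
  have hA1B1 : A1 ^ 2 ≤ 2 * Q1 * s.card * B1 := by
    rw [hA1]
    refine (sq_sum_le_card_mul_sum_sq).trans ?_
    rw [← hB1]
    exact mul_le_mul_of_nonneg_right hcardP hB10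
  have s2 := step (V1 ×ˢ s) (fun x => DD D1 x.1 (F x.2)) a K (fun x => hF1s x.1 x.2)
    (fun x => hF1b x.1 x.2) D2 Q2 hQ2 h2
  rw [← hV2, ← hB1] at s2
  obtain ⟨A2, hA2⟩ : ∃ A : ℝ, A = ∑ y ∈ V2 ×ˢ (V1 ×ˢ s),
    ‖∑ h ∈ Ico a (a + K), DD D2 y.1 (DD D1 y.2.1 (F y.2.2)) h‖ := ⟨_, rfl⟩
  have s2' : ∑ v ∈ V2, ‖∑ x ∈ V1 ×ˢ s, ∑ h ∈ Ico a (a + K), DD D2 v (DD D1 x.1 (F x.2)) h‖ ≤
      A2 := by
    rw [hA2, Finset.sum_product]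
    exact Finset.sum_le_sum fun v _ => norm_sum_le _ _
  -- step 3
  obtain ⟨B2, hB2⟩ : ∃ B : ℝ, B = ∑ y ∈ V2 ×ˢ (V1 ×ˢ s),
    ‖∑ h ∈ Ico a (a + K), DD D2 y.1 (DD D1 y.2.1 (F y.2.2)) h‖ ^ 2 := ⟨_, rfl⟩
  have hB20 : 0 ≤ B2 := by rw [hB2]; exact Finset.sum_nonneg fun _ _ => sq_nonneg _
  have hcardP2 : (((V2 ×ˢ (V1 ×ˢ s)).card : ℕ) : ℝ) ≤ 4 * Q1 * Q2 * s.card := by
    rw [Finset.card_product, Finset.card_product]; push_cast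
    have : (V2.card : ℝ) * (V1.card * s.card) ≤ 2 * Q2 * (2 * Q1 * s.card) := by
      apply mul_le_mul c2 (mul_le_mul_of_nonneg_right c1 (Nat.cast_nonneg _)) (by positivity)
        (by positivity)
    linarith
  have hA2B2 : A2 ^ 2 ≤ 4 * Q1 * Q2 * s.card * B2 := by
    rw [hA2]
    refine (sq_sum_le_card_mul_sum_sq).trans ?_
    rw [← hB2]
    exact mul_le_mul_of_nonneg_right hcardP2 hB20
  obtain ⟨E, hE⟩ : ∃ E : ℝ, E = ∑ v1 ∈ V1, ∑ v2 ∈ V2, ∑ v3 ∈ V3,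
    ‖∑ i ∈ s, ∑ h ∈ Ico a (a + K), DD D3 v3 (DD D2 v2 (DD D1 v1 (F i))) h‖ := ⟨_, rfl⟩
  have hE0 : 0 ≤ E := by
    rw [hE]
    exact Finset.sum_nonneg fun _ _ => Finset.sum_nonneg fun _ _ => Finset.sum_nonneg
      fun _ _ => norm_nonneg _
  have s3 : B2 ≤ 4 * Q1 * Q2 * (2 * s.card * (K:ℝ) ^ 2 / Q3) + 2 * K / Q3 * E := by
    have e1 : B2 = ∑ v1 ∈ V1, ∑ v2 ∈ V2, ∑ i ∈ s,
        ‖∑ h ∈ Ico a (a + K), DD D2 v2 (DD D1 v1 (F i)) h‖ ^ 2 := by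
      rw [hB2, Finset.sum_product]
      simp_rw [Finset.sum_product]
      rw [Finset.sum_comm]
    have e2 : ∀ v1 ∈ V1, ∀ v2 ∈ V2, ∑ i ∈ s,
        ‖∑ h ∈ Ico a (a + K), DD D2 v2 (DD D1 v1 (F i)) h‖ ^ 2 ≤
        2 * s.card * (K:ℝ) ^ 2 / Q3 + 2 * K / Q3 * ∑ v3 ∈ V3,
          ‖∑ i ∈ s, ∑ h ∈ Ico a (a + K), DD D3 v3 (DD D2 v2 (DD D1 v1 (F i))) h‖ := by
      intro v1 _ v2 _
      have := step s (fun i => DD D2 v2 (DD D1 v1 (F i))) a K (fun i => hF2s v2 v1 i)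
        (fun i => hF2b v2 v1 i) D3 Q3 hQ3 h3
      rw [← hV3] at this
      exact this
    rw [e1]
    calc ∑ v1 ∈ V1, ∑ v2 ∈ V2, ∑ i ∈ s,
          ‖∑ h ∈ Ico a (a + K), DD D2 v2 (DD D1 v1 (F i)) h‖ ^ 2
        ≤ ∑ v1 ∈ V1, ∑ v2 ∈ V2, (2 * s.card * (K:ℝ) ^ 2 / Q3 + 2 * K / Q3 * ∑ v3 ∈ V3,
          ‖∑ i ∈ s, ∑ h ∈ Ico a (a + K), DD D3 v3 (DD D2 v2 (DD D1 v1 (F i))) h‖) :=
          Finset.sum_le_sum fun v1 hv1 => Finset.sum_le_sum fun v2 hv2 => e2 v1 hv1 v2 hv2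
      _ = (V1.card : ℝ) * V2.card * (2 * s.card * (K:ℝ) ^ 2 / Q3) + 2 * K / Q3 * E := by
          simp_rw [Finset.sum_add_distrib, Finset.sum_const, nsmul_eq_mul, ← Finset.mul_sum]
          rw [hE]
          ring
      _ ≤ _ := by
          apply add_le_add_left
          apply mul_le_mul_of_nonneg_right _ (by positivity)
          calc (V1.card : ℝ) * V2.card ≤ (2 * Q1) * (2 * Q2) :=
                mul_le_mul c1 c2 (Nat.cast_nonneg _) (by positivity)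
            _ = 4 * Q1 * Q2 := by ring
  rw [← hE]
  have hQ1r : (0:ℝ) < Q1 := by exact_mod_cast hQ1
  have hQ2r : (0:ℝ) < Q2 := by exact_mod_cast hQ2
  have hQ3r : (0:ℝ) < Q3 := by exact_mod_cast hQ3
  apply arith (A1 := A1) (B1 := B1) (A2 := A2) (B2 := B2) (Nat.cast_nonneg _) (Nat.cast_nonneg _)
    hQ1r hQ2r hQ3r (Finset.sum_nonneg fun _ _ => sq_nonneg _)
  · rw [hA1]; exact Finset.sum_nonneg fun _ _ => norm_nonneg _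
  · rw [hA2]; exact Finset.sum_nonneg fun _ _ => norm_nonneg _
  · exact hE0
  · refine s1.trans ?_
    apply add_le_add_right
    exact mul_le_mul_of_nonneg_left s1' (by positivity)
  · exact hA1B1
  · refine s2.trans ?_
    apply add_le_add
    · apply div_le_div_of_nonneg_right _ hQ2r.le
      apply mul_le_mul_of_nonneg_right _ (sq_nonneg _)
      exact mul_le_mul_of_nonneg_left hcardP (by norm_num)
    · exact mul_le_mul_of_nonneg_left s2' (by positivity)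
  · exact hA2B2
  · exact s3

end Pool.Agent.Y924.R7.Vdc
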