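import Pool.Agent.Y766.R7.Stm
import Pool.Agent.Y779.R3.Klo

set_option autoImplicit false

/-!
# Square roots modulo prime powers: basic facts
-/

namespace Pool.Agent.Y924.R7

open Finset
open Pool.Agent.Y766.R7 Pool.Agent.Y779.R3

variable {p r : ℕ}

theorem int_unit_of_dvd (hp : p.Prime) {x0 x : ℤ} (h0 : ¬ (p : ℤ) ∣ x0) (h : (p : ℤ) ∣ x - x0) :
    IsUnit (x : ZMod (p ^ r)) := by
  apply unit_int hp
  intro hx
  apply h0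
  have := dvd_sub hx h
  rwa [sub_sub_cancel] at this

theorem mul_inv {x : ZMod (p ^ r)} (hx : IsUnit x) : x * x⁻¹ = 1 := ZMod.mul_inv_of_unit x hx

theorem inv_unit {x : ZMod (p ^ r)} (hx : IsUnit x) : IsUnit (x⁻¹) := by
  have := mul_inv hx
  exact IsUnit.of_mul_eq_one x (by rw [mul_comm]; exact this)

/-- the quotient `l / l₀` -/
theorem quot (hp : p.Prime) {l0 l : ℤ} (h0 : ¬ (p : ℤ) ∣ l0)
    (h : (p : ℤ) ∣ l - l0) : ∃ y : ZMod (p ^ r),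
      (l : ZMod (p ^ r)) * (l0 : ZMod (p ^ r))⁻¹ = 1 + p * y := by
  obtain ⟨k, hk⟩ := h
  refine ⟨k * (l0 : ZMod (p ^ r))⁻¹, ?_⟩
  have e : l = l0 + p * k := by linarith
  have h1 := mul_inv (unit_int (r := r) hp h0)
  rw [e]
  push_cast
  linear_combination h1

theorem aa_sq (hsq : S_SQ) (hp : p.Prime) (hp2 : p ≠ 2) (hr : 1 ≤ r) {l0 l : ℤ}
    (h0 : ¬ (p : ℤ) ∣ l0) (h : (p : ℤ) ∣ l - l0) :
    aa p r l0 l ^ 2 * (l0 : ZMod (p ^ r)) = l := by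
  obtain ⟨y, hy⟩ := quot (r := r) hp h0 h
  have h1 := mul_inv (unit_int (r := r) hp h0)
  unfold aa
  rw [hy, (hsq p r hp hp2 hr).1 y, ← hy]
  linear_combination (l : ZMod (p ^ r)) * h1

theorem aa_unit (hsq : S_SQ) (hp : p.Prime) (hp2 : p ≠ 2) (hr : 1 ≤ r) {l0 l : ℤ}
    (h0 : ¬ (p : ℤ) ∣ l0) (h : (p : ℤ) ∣ l - l0) : IsUnit (aa p r l0 l) := by
  have h1 := aa_sq hsq hp hp2 hr h0 h
  have h2 : IsUnit (aa p r l0 l ^ 2 * (l0 : ZMod (p ^ r))) := by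
    rw [h1]; exact int_unit_of_dvd hp h0 h
  have h3 := isUnit_of_mul_isUnit_left h2
  rwa [isUnit_pow_iff (by norm_num)] at h3

/-- `aa` is `1` modulo `p` -/
theorem aa_one (hsq : S_SQ) (hp : p.Prime) (hp2 : p ≠ 2) (hr : 1 ≤ r) {l0 l : ℤ}
    (h0 : ¬ (p : ℤ) ∣ l0) (h : (p : ℤ) ∣ l - l0) : ∃ z : ZMod (p ^ r), aa p r l0 l = 1 + p * z := by
  obtain ⟨y, hy⟩ := quot (r := r) hp h0 h
  obtain ⟨z, hz⟩ := (hsq p r hp hp2 hr).2.1 1 y le_rfl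
  refine ⟨z, ?_⟩
  unfold aa
  rw [hy]
  rw [pow_one] at hz
  exact hz

end Pool.Agent.Y924.R7
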